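import Pool.Agent.R533.GU.Defs

set_option autoImplicit false

/-! Renaming of registers, and the simulation of an algorithm on another store. -/

namespace Pool.Agent.R533.GU

open Pool.Agent.H558R2 Pool.Agent.H622R3.SM

/-- Renaming of the registers of an instruction. -/
def renI (I : Instr) : Instr := ⟨I.op, 5 :: I.dst, 5 :: I.fst, 5 :: I.snd⟩

/-- Renaming of the register of a test. -/
def renT : Test → Test
  | Test.sign r => Test.sign (5 :: r)
  | Test.ask w => Test.ask w
  | Test.answer a => Test.answer a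

theorem exec_ren : ∀ (P : List Instr) (ρ ρ' : Reg → ℝ) (q : (Reg → ℝ) × List ℝ),
    (∀ r, ρ' (5 :: r) = ρ r) → exec P ρ = some q →
    ∃ σ', exec (P.map renI) ρ' = some (σ', q.2) ∧ ∀ r, σ' (5 :: r) = q.1 r := by
  intro P
  induction P with
  | nil =>
    intro ρ ρ' q h hq
    simp only [exec, Option.some.injEq] at hq
    subst hq
    exact ⟨ρ', rfl, h⟩
  | cons I P ih =>
    intro ρ ρ' q h hq
    simp only [exec] at hq
    by_cases hd : I.op = Op.div ∧ ρ I.snd = 0
    · rw [if_pos hd] at hq; exact absurd hq (by simp)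
    rw [if_neg hd, Option.map_eq_some_iff] at hq
    obtain ⟨r, hr, rfl⟩ := hq
    obtain ⟨σ', h1, h2⟩ := ih _ (Function.update ρ' (5 :: I.dst)
      (I.op.eval (ρ I.fst) (ρ I.snd))) r (fun s => by
        by_cases hs : s = I.dst
        · subst hs; simp
        · rw [Function.update_of_ne (by simpa using hs), Function.update_of_ne hs]
          exact h s) hr
    refine ⟨σ', ?_, h2⟩
    have e : exec ((I :: P).map renI) ρ' =
        if I.op = Op.div ∧ ρ' (5 :: I.snd) = 0 then none
        else (exec (P.map renI) (Function.update ρ' (5 :: I.dst)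
          (I.op.eval (ρ' (5 :: I.fst)) (ρ' (5 :: I.snd))))).map fun r =>
            (r.1, I.op.eval (ρ' (5 :: I.fst)) (ρ' (5 :: I.snd)) :: r.2) := rfl
    rw [e, h, h, if_neg hd, h1]
    rfl

theorem exec_append : ∀ (P Q : List Instr) (ρ σ : Reg → ℝ) (l : List ℝ),
    exec P ρ = some (σ, l) →
    exec (P ++ Q) ρ = (exec Q σ).map fun r => (r.1, l ++ r.2) := by
  intro P
  induction P with
  | nil =>
    intro Q ρ σ l h
    simp only [exec, Option.some.injEq, Prod.mk.injEq] at h
    obtain ⟨rfl, rfl⟩ := h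
    cases h : exec Q ρ <;> simp [h]
  | cons I P ih =>
    intro Q ρ σ l h
    simp only [exec] at h
    by_cases hd : I.op = Op.div ∧ ρ I.snd = 0
    · rw [if_pos hd] at h; exact absurd h (by simp)
    rw [if_neg hd, Option.map_eq_some_iff] at h
    obtain ⟨⟨r1, r2⟩, hr, he⟩ := h
    simp only [Prod.mk.injEq] at he
    obtain ⟨rfl, rfl⟩ := he
    simp only [List.cons_append, exec]
    rw [if_neg hd, ih Q _ _ _ hr]
    cases exec Q r1 <;> simp

/-- A straight-line program which writes the values `tgt` to the registers `5 :: r`. -/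
theorem exec_init (tgt : Reg → ℝ) (ρ₀ : Reg → ℝ) : ∀ (L : List Instr) (ρ : Reg → ℝ),
    (∀ I ∈ L, ∃ r, I.dst = 5 :: r ∧ I.op ≠ Op.div ∧ (∀ s, I.fst ≠ 5 :: s) ∧
      (∀ s, I.snd ≠ 5 :: s) ∧ I.op.eval (ρ₀ I.fst) (ρ₀ I.snd) = tgt r) →
    (∀ s, (∀ r, s ≠ 5 :: r) → ρ s = ρ₀ s) →
    ∃ ρ', exec L ρ = some (ρ', L.map fun I => I.op.eval (ρ₀ I.fst) (ρ₀ I.snd)) ∧
      (∀ r, (∃ I ∈ L, I.dst = 5 :: r) → ρ' (5 :: r) = tgt r) ∧
      (∀ r, (∀ I ∈ L, I.dst ≠ 5 :: r) → ρ' (5 :: r) = ρ (5 :: r)) := by
  intro L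
  induction L with
  | nil =>
    intro ρ _ _
    exact ⟨ρ, rfl, fun r h => by simp at h, fun r _ => rfl⟩
  | cons I L ih =>
    intro ρ h hρ
    obtain ⟨r, h1, h2, h3, h4, h5⟩ := h I (by simp)
    have e1 : ρ I.fst = ρ₀ I.fst := hρ _ h3
    have e2 : ρ I.snd = ρ₀ I.snd := hρ _ h4
    obtain ⟨ρ', g1, g2, g3⟩ := ih (Function.update ρ I.dst (I.op.eval (ρ₀ I.fst) (ρ₀ I.snd)))
      (fun J hJ => h J (List.mem_cons_of_mem _ hJ)) (fun s hs => by
        rw [Function.update_of_ne (by rw [h1]; exact hs r)]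
        exact hρ s hs)
    refine ⟨ρ', ?_, fun s hs => ?_, fun s hs => ?_⟩
    · simp only [exec, List.map_cons]
      rw [if_neg (fun hh => h2 hh.1), e1, e2, g1]
      rfl
    · by_cases hs' : ∃ J ∈ L, J.dst = 5 :: s
      · exact g2 s hs'
      · push Not at hs'
        obtain ⟨J, hJ, hJs⟩ := hs
        rcases List.mem_cons.mp hJ with rfl | hJ
        · rw [g3 s hs', hJs, Function.update_self]
          rw [hJs] at h1
          rw [h5, (List.cons.inj h1).2]
        · exact absurd hJs (hs' J hJ)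
    · rw [g3 s fun J hJ => hs J (List.mem_cons_of_mem _ hJ)]
      exact Function.update_of_ne (Ne.symm (hs I (by simp))) _ _

theorem run_mono (O : Set (List Bool)) (α : List Outcome → List Instr × Test) :
    ∀ (k k' : ℕ) (h : List Outcome) (ρ : Reg → ℝ) (q : Bool × List ℝ × ℕ), k ≤ k' →
    run O α k h ρ = some q → run O α k' h ρ = some q := by
  intro k
  induction k with
  | zero => intro k' h ρ q _ hq; simp [run] at hq
  | succ k ih =>
    intro k' h ρ q hk hq
    obtain ⟨k', rfl⟩ : ∃ j, k' = j + 1 := ⟨k' - 1, by omega⟩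
    simp only [run] at hq ⊢
    rw [Option.bind_eq_some_iff] at hq ⊢
    obtain ⟨r, hr, hq⟩ := hq
    refine ⟨r, hr, ?_⟩
    cases hT : (α h).2 with
    | answer a => rw [hT] at hq; exact hq
    | sign x =>
      rw [hT] at hq
      simp only [Option.map_eq_some_iff] at hq ⊢
      obtain ⟨q', hq', rfl⟩ := hq
      exact ⟨q', ih k' _ _ _ (by omega) hq', rfl⟩
    | ask w =>
      rw [hT] at hq
      simp only [Option.map_eq_some_iff] at hq ⊢
      obtain ⟨q', hq', rfl⟩ := hq
      exact ⟨q', ih k' _ _ _ (by omega) hq', rfl⟩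

/-- Simulation of `α` by `β`, after the outcomes `h₀`. -/
theorem run_sim (O : Set (List Bool)) (α β : List Outcome → List Instr × Test)
    (h₀ : List Outcome)
    (hβ : ∀ h, h ≠ [] → β (h₀ ++ h) = ((α h).1.map renI, renT (α h).2)) :
    ∀ (k : ℕ) (h : List Outcome) (ρ ρ' : Reg → ℝ) (q : Bool × List ℝ × ℕ), h ≠ [] →
    (∀ r, ρ' (5 :: r) = ρ r) → run O α k h ρ = some q → run O β k (h₀ ++ h) ρ' = some q := by
  intro k
  induction k with
  | zero => intro h ρ ρ' q _ _ hq; simp [run] at hq
  | succ k ih =>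
    intro h ρ ρ' q hne hρ hq
    simp only [run] at hq ⊢
    rw [Option.bind_eq_some_iff] at hq ⊢
    obtain ⟨r, hr, hq⟩ := hq
    obtain ⟨σ', e1, e2⟩ := exec_ren _ _ _ _ hρ hr
    rw [hβ h hne]
    refine ⟨_, e1, ?_⟩
    cases hT : (α h).2 with
    | answer a => rw [hT] at hq; exact hq
    | sign x =>
      rw [hT] at hq
      simp only [renT, Option.map_eq_some_iff] at hq ⊢
      obtain ⟨q', hq', rfl⟩ := hq
      refine ⟨q', ?_, rfl⟩
      rw [e2, List.append_assoc]
      exact ih _ _ _ _ (by simp) e2 hq'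
    | ask w =>
      rw [hT] at hq
      simp only [renT, Option.map_eq_some_iff] at hq ⊢
      obtain ⟨q', hq', rfl⟩ := hq
      refine ⟨q', ?_, rfl⟩
      rw [List.append_assoc]
      exact ih _ _ _ _ (by simp) e2 hq'

/-- The first block of the simulation, which begins with the program `ini`. -/
theorem run_sim_start (O : Set (List Bool)) (α β : List Outcome → List Instr × Test)
    (h₀ : List Outcome) (ini : List Instr) (l : List ℝ)
    (hβ : ∀ h, h ≠ [] → β (h₀ ++ h) = ((α h).1.map renI, renT (α h).2))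
    (hβ0 : β h₀ = (ini ++ (α []).1.map renI, renT (α []).2)) (k : ℕ) (ρ ρ₀ ρ' : Reg → ℝ)
    (ans : Bool) (nums : List ℝ) (steps : ℕ) (hi : exec ini ρ₀ = some (ρ', l))
    (hρ : ∀ r, ρ' (5 :: r) = ρ r) (hq : run O α k [] ρ = some (ans, nums, steps)) :
    run O β k h₀ ρ₀ = some (ans, l ++ nums, l.length + steps) := by
  cases k with
  | zero => simp [run] at hq
  | succ k =>
    simp only [run] at hq ⊢
    rw [Option.bind_eq_some_iff] at hq ⊢
    obtain ⟨r, hr, hq⟩ := hq
    obtain ⟨σ', e1, e2⟩ := exec_ren _ _ _ _ hρ hr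
    rw [hβ0]
    refine ⟨(σ', l ++ r.2), ?_, ?_⟩
    · simp only
      rw [exec_append _ _ _ _ _ hi, e1]
      rfl
    cases hT : (α []).2 with
    | answer a =>
      rw [hT] at hq
      simp only [Option.some.injEq, Prod.mk.injEq] at hq
      obtain ⟨rfl, rfl, rfl⟩ := hq
      simp [renT]
    | sign x =>
      rw [hT] at hq
      simp only [renT, Option.map_eq_some_iff] at hq ⊢
      obtain ⟨q', hq', he⟩ := hq
      simp only [Prod.mk.injEq] at he
      obtain ⟨rfl, rfl, rfl⟩ := he
      refine ⟨q', ?_, ?_⟩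
      · rw [e2]
        exact run_sim O α β h₀ hβ k _ _ _ _ (by simp) e2 hq'
      · simp only [List.append_assoc, List.length_append, Prod.mk.injEq, true_and]
        omega
    | ask w =>
      rw [hT] at hq
      simp only [renT, Option.map_eq_some_iff] at hq ⊢
      obtain ⟨q', hq', he⟩ := hq
      simp only [Prod.mk.injEq] at he
      obtain ⟨rfl, rfl, rfl⟩ := he
      refine ⟨q', ?_, ?_⟩
      · exact run_sim O α β h₀ hβ k _ _ _ _ (by simp) e2 hq'
      · simp only [List.append_assoc, List.length_append, Prod.mk.injEq, true_and]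
        omega

/-- A list of sign tests. -/
theorem run_tests (O : Set (List Bool)) (β : List Outcome → List Instr × Test)
    (reg : ℕ → Reg) (ρ : Reg → ℝ) (N k : ℕ) (q : Bool × List ℝ × ℕ)
    (hβ : ∀ h : List Outcome, h.length < N → β h = ([], Test.sign (reg h.length))) :
    ∀ t, t ≤ N →
    run O β k ((List.range N).map fun s => signOut (ρ (reg s))) ρ = some q →
    run O β (t + k) ((List.range (N - t)).map fun s => signOut (ρ (reg s))) ρ =
      some (q.1, q.2.1, t + q.2.2) := by
  intro t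
  induction t with
  | zero =>
    intro _ h
    simpa using h
  | succ t ih =>
    intro ht h
    have h1 := ih (by omega) h
    rw [show t + 1 + k = (t + k) + 1 by ring]
    simp only [run]
    rw [hβ _ (by simp; omega)]
    simp only [exec, Option.bind_some, List.length_map, List.length_range, List.length_nil,
      List.nil_append, Option.map_eq_some_iff]
    refine ⟨(q.1, q.2.1, t + q.2.2), ?_, ?_⟩
    · rw [← h1, show N - t = (N - (t + 1)) + 1 by omega, List.range_succ, List.map_append]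
      rfl
    · simp only [Prod.mk.injEq, true_and]
      omega

end Pool.Agent.R533.GU
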