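import Pool.Agent.R533.GU.Cls
import Pool.Agent.R533.GU.Sim

set_option autoImplicit false

/-! The algorithm which solves `A x ≥ b` by the system on the grid. -/

namespace Pool.Agent.R533.GU

open Pool.Agent.H558R2 Pool.Agent.H622R3.SM

/-- The number of sign tests. -/
def nt (m n : ℕ) : ℕ := m * (n + 1)

/-- The register of the test `t`. -/
def reg (n t : ℕ) : Reg :=
  if t % (n + 1) < n then [0, t / (n + 1), t % (n + 1)] else [1, t / (n + 1)]

/-- Positive part of the register of the test `t`. -/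
def posI (n : ℕ) (h : List Outcome) (t : ℕ) (dst : Reg) : List Instr :=
  if h.getD t none = some true then [⟨Op.add, dst, reg n t, []⟩] else []

/-- Negative part of the register of the test `t`. -/
def negI (n : ℕ) (h : List Outcome) (t : ℕ) (dst : Reg) : List Instr :=
  if h.getD t none = some false then [⟨Op.sub, dst, [], reg n t⟩] else []

/-- The datum of a cell. -/
def datI (n : ℕ) (h : List Outcome) (R c : ℕ) (dst : Reg) : List Instr :=
  if (c - 1) / 2 < n then
    (if c % 2 = 1 then posI n h ((R - 1) * (n + 1) + (c - 1) / 2) dst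
      else negI n h ((R - 1) * (n + 1) + (c - 1) / 2) dst)
  else
    (if c % 2 = 1 then negI n h ((R - 1) * (n + 1) + (c - 1) / 2) dst
      else posI n h ((R - 1) * (n + 1) + (c - 1) / 2) dst)

/-- An entry of the matrix. -/
def entI (n : ℕ) (h : List Outcome) (k R c : ℕ) (dst : Reg) : List Instr :=
  if k = 1 then [⟨Op.add, dst, [2], []⟩]
  else if k = 2 then [⟨Op.sub, dst, [], [2]⟩]
  else if k = 3 then datI n h R c dst
  else []

/-- A row of the matrix. -/
def rowI (m n : ℕ) (h : List Outcome) (i : ℕ) : List Instr :=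
  entI n h (kin m n (posC n i).1 (posC n i).2).1 ((posC n i).2 / 6) ((posC n i).1 / 6)
    [5, 0, i, (posC n i).2 * wid n + ((posC n i).1 - 1) / 2] ++
  (entI n h (kin m n (posC n i).1 (posC n i).2).2.1 ((posC n i).2 / 6) ((posC n i).1 / 6)
    [5, 0, i, (posC n i).2 * wid n + ((posC n i).1 + 1) / 2] ++
  (entI n h (kin m n (posC n i).1 (posC n i).2).2.2.1 ((posC n i).2 / 6) ((posC n i).1 / 6)
    [5, 0, i, ((posC n i).2 - 1) * wid n + (posC n i).1 / 2] ++
  entI n h (kin m n (posC n i).1 (posC n i).2).2.2.2 ((posC n i).2 / 6) ((posC n i).1 / 6)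
    [5, 0, i, ((posC n i).2 + 1) * wid n + (posC n i).1 / 2]))

/-- The initial program. -/
def ini (m n : ℕ) (h : List Outcome) : List Instr :=
  (List.range (size m n)).flatMap (rowI m n h) ++
    [⟨Op.add, [5, 1, top n], [2], []⟩, ⟨Op.add, [5, 2], [2], []⟩]

/-- The algorithm. -/
def alg (α : Alg) : Alg := fun m n h =>
  if h.length < nt m n then ([], Test.sign (reg n h.length))
  else ((if h.length = nt m n then ini m n h else []) ++
      (α (size m n) (size m n) (h.drop (nt m n))).1.map renI,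
    renT (α (size m n) (size m n) (h.drop (nt m n))).2)

/-- The outcomes of the sign tests. -/
noncomputable def outs (m n : ℕ) (ρ : Reg → ℝ) : List Outcome :=
  (List.range (nt m n)).map fun s => signOut (ρ (reg n s))

theorem signOut_true (v : ℝ) : signOut v = some true ↔ 0 < v := by
  unfold signOut
  split_ifs with h1 h2 <;> simp [h1]

theorem signOut_false (v : ℝ) : signOut v = some false ↔ v < 0 := by
  unfold signOut
  split_ifs with h1 h2
  · simp; exact h1.le
  · simp [h2]
  · simp; exact not_lt.mp h2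

variable {m n : ℕ}

theorem outs_get (ρ : Reg → ℝ) (t : ℕ) (ht : t < nt m n) :
    (outs m n ρ).getD t none = signOut (ρ (reg n t)) := by
  unfold outs
  rw [List.getD_eq_getElem?_getD, List.getElem?_map, List.getElem?_range ht]
  rfl

theorem start_A (A : Matrix (Fin m) (Fin n) ℝ) (b : Fin m → ℝ) (i j : ℕ) (hi : i < m)
    (hj : j < n) : start A b [0, i, j] = A ⟨i, hi⟩ ⟨j, hj⟩ := by
  simp [start, hi, hj]

theorem start_b (A : Matrix (Fin m) (Fin n) ℝ) (b : Fin m → ℝ) (i : ℕ) (hi : i < m) :
    start A b [1, i] = b ⟨i, hi⟩ := by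
  simp [start, hi]

theorem reg_ne (n t : ℕ) (s : Reg) : reg n t ≠ 5 :: s := by
  unfold reg
  split_ifs <;> simp

/-- A good list of instructions for the value `v`. -/
def GoodL (ρ : Reg → ℝ) (dst : Reg) (v : ℝ) (L : List Instr) : Prop :=
  (∀ I ∈ L, I.dst = dst ∧ I.op ≠ Op.div ∧ (∀ s, I.fst ≠ 5 :: s) ∧ (∀ s, I.snd ≠ 5 :: s) ∧
    I.op.eval (ρ I.fst) (ρ I.snd) = v) ∧ (L = [] → v = 0) ∧ L.length ≤ 1

theorem good_pos (A : Matrix (Fin m) (Fin n) ℝ) (b : Fin m → ℝ) (t : ℕ) (ht : t < nt m n)
    (dst : Reg) : GoodL (start A b) dst (max (start A b (reg n t)) 0)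
      (posI n (outs m n (start A b)) t dst) := by
  unfold posI
  rw [outs_get _ t ht]
  by_cases h : 0 < start A b (reg n t)
  · rw [if_pos ((signOut_true _).mpr h)]
    refine ⟨fun I hI => ?_, by simp, by simp⟩
    rw [List.mem_singleton] at hI
    subst hI
    refine ⟨rfl, by simp, reg_ne n t, by simp, ?_⟩
    rw [max_eq_left h.le]
    simp [Op.eval, start]
  · rw [if_neg (fun e => h ((signOut_true _).mp e))]
    exact ⟨by simp, fun _ => max_eq_right (not_lt.mp h), by simp⟩

theorem good_neg (A : Matrix (Fin m) (Fin n) ℝ) (b : Fin m → ℝ) (t : ℕ) (ht : t < nt m n)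
    (dst : Reg) : GoodL (start A b) dst (max (-start A b (reg n t)) 0)
      (negI n (outs m n (start A b)) t dst) := by
  unfold negI
  rw [outs_get _ t ht]
  by_cases h : start A b (reg n t) < 0
  · rw [if_pos ((signOut_false _).mpr h)]
    refine ⟨fun I hI => ?_, by simp, by simp⟩
    rw [List.mem_singleton] at hI
    subst hI
    refine ⟨rfl, by simp, by simp, reg_ne n t, ?_⟩
    rw [max_eq_left (by linarith)]
    simp [Op.eval, start]
  · rw [if_neg (fun e => h ((signOut_false _).mp e))]
    refine ⟨by simp, fun _ => max_eq_right ?_, by simp⟩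
    have := not_lt.mp h
    linarith

theorem good_dat (A : Matrix (Fin m) (Fin n) ℝ) (b : Fin m → ℝ) (R c : ℕ) (h1 : 1 ≤ R)
    (h2 : R ≤ m) (h3 : 1 ≤ c) (h4 : c ≤ 2 * n + 2) (dst : Reg) :
    GoodL (start A b) dst (dat A b R c) (datI n (outs m n (start A b)) R c dst) := by
  obtain ⟨i, rfl⟩ : ∃ i, R = i + 1 := ⟨R - 1, by omega⟩
  have hj : (c - 1) / 2 ≤ n := by omega
  have ht : (i + 1 - 1) * (n + 1) + (c - 1) / 2 < nt m n := by
    unfold nt
    have : (i + 1) * (n + 1) ≤ m * (n + 1) := Nat.mul_le_mul_right _ h2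
    rw [Nat.add_sub_cancel]
    have h5 : (i + 1) * (n + 1) = i * (n + 1) + (n + 1) := by ring
    omega
  have e1 : ((i + 1 - 1) * (n + 1) + (c - 1) / 2) / (n + 1) = i := by
    rw [Nat.add_sub_cancel, mul_comm, Nat.mul_add_div (by omega), Nat.div_eq_of_lt (by omega)]
    rfl
  have e2 : ((i + 1 - 1) * (n + 1) + (c - 1) / 2) % (n + 1) = (c - 1) / 2 := by
    rw [Nat.add_sub_cancel, mul_comm, Nat.mul_add_mod, Nat.mod_eq_of_lt (by omega)]
  have hp := good_pos A b _ ht dst
  have hn := good_neg A b _ ht dst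
  unfold datI dat
  by_cases hlt : (c - 1) / 2 < n
  · have er : start A b (reg n ((i + 1 - 1) * (n + 1) + (c - 1) / 2)) =
        ext A b (i + 1 - 1) ((c - 1) / 2) := by
      unfold reg
      rw [e1, e2, if_pos hlt, start_A A b i _ (by omega) hlt]
      unfold ext
      rw [Nat.add_sub_cancel, dif_pos (by omega), dif_pos hlt]
    rw [er] at hp hn
    rw [if_pos hlt]
    by_cases hc : c % 2 = 1
    · rw [if_pos hc, if_pos hc]; exact hp
    · rw [if_neg hc, if_neg hc]; exact hn
  · have er : start A b (reg n ((i + 1 - 1) * (n + 1) + (c - 1) / 2)) =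
        -ext A b (i + 1 - 1) ((c - 1) / 2) := by
      unfold reg
      rw [e1, e2, if_neg hlt, start_b A b i (by omega)]
      unfold ext
      rw [Nat.add_sub_cancel, dif_pos (by omega), dif_neg hlt, if_pos (by omega), neg_neg]
    rw [er] at hp hn
    rw [neg_neg] at hn
    rw [if_neg hlt]
    by_cases hc : c % 2 = 1
    · rw [if_pos hc, if_pos hc]; exact hn
    · rw [if_neg hc, if_neg hc]; exact hp

theorem good_ent (A : Matrix (Fin m) (Fin n) ℝ) (b : Fin m → ℝ) (k R c : ℕ)
    (hk : k = 3 → 1 ≤ R ∧ R ≤ m ∧ 1 ≤ c ∧ c ≤ 2 * n + 2) (dst : Reg) :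
    GoodL (start A b) dst (val (dat A b R c) k) (entI n (outs m n (start A b)) k R c dst) := by
  unfold entI
  by_cases h1 : k = 1
  · subst h1
    rw [if_pos rfl, val_one]
    refine ⟨fun I hI => ?_, by simp, by simp⟩
    rw [List.mem_singleton] at hI
    subst hI
    exact ⟨rfl, by simp, by simp, by simp, by simp [Op.eval, start]⟩
  rw [if_neg h1]
  by_cases h2 : k = 2
  · subst h2
    rw [if_pos rfl, val_two]
    refine ⟨fun I hI => ?_, by simp, by simp⟩
    rw [List.mem_singleton] at hI
    subst hI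
    exact ⟨rfl, by simp, by simp, by simp, by simp [Op.eval, start]⟩
  rw [if_neg h2]
  by_cases h3 : k = 3
  · subst h3
    rw [if_pos rfl, val_three]
    obtain ⟨g1, g2, g3, g4⟩ := hk rfl
    exact good_dat A b R c g1 g2 g3 g4 dst
  rw [if_neg h3]
  refine ⟨by simp, fun _ => ?_, by simp⟩
  unfold val
  rw [if_neg h1, if_neg h2, if_neg h3]

end Pool.Agent.R533.GU
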