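import Pool.Agent.R533.GU.Typ

set_option autoImplicit false
set_option linter.unusedSimpArgs false

/-! From a solution of the system on the grid to a solution of `A x ≥ b`. -/

namespace Pool.Agent.R533.GU

variable {m n : ℕ}

/-- The inequality at a point. -/
theorem rowge (D : ℕ → ℕ → ℝ) (z : Fin (size m n) → ℝ)
    (hz : grhs ℝ m n ≤ (gmat D m n).mulVec z) (R c lx ly : ℕ) (hx : lx < 6) (hy : ly < 6)
    (he : (lx + ly) % 2 = 0) (hR : R ≤ m + 1) (hc : c ≤ 2 * n + 3) :
    (if (6 * R + ly) * wid n + (6 * c + lx) / 2 = top n then (1 : ℝ) else 0) ≤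
      val (D R c) (tab (36 * typ m n R c + 6 * ly + lx)).1 * fz z (6 * c + lx - 1) (6 * R + ly) +
      val (D R c) (tab (36 * typ m n R c + 6 * ly + lx)).2.1 *
        fz z (6 * c + lx + 1) (6 * R + ly) +
      val (D R c) (tab (36 * typ m n R c + 6 * ly + lx)).2.2.1 *
        fz z (6 * c + lx) (6 * R + ly - 1) +
      val (D R c) (tab (36 * typ m n R c + 6 * ly + lx)).2.2.2 *
        fz z (6 * c + lx) (6 * R + ly + 1) := by
  have hxw : 6 * c + lx < 2 * wid n := by unfold wid; omega
  have hyh : 6 * R + ly < 6 * (m + 2) := by omega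
  have hi := idx_lt hyh hxw
  have hp : posC n ((6 * R + ly) * wid n + (6 * c + lx) / 2) = (6 * c + lx, 6 * R + ly) :=
    posC_of n _ _ (by omega) hxw
  have h1 := hz ⟨_, hi⟩
  rw [row_eq] at h1
  simp only [hp] at h1
  rw [kin_loc m n R c lx ly hx hy, show (6 * R + ly) / 6 = R by omega,
    show (6 * c + lx) / 6 = c by omega] at h1
  exact h1

theorem row0 (D : ℕ → ℕ → ℝ) (z : Fin (size m n) → ℝ)
    (hz : grhs ℝ m n ≤ (gmat D m n).mulVec z) (R c lx ly : ℕ) (hx : lx < 6) (hy : ly < 6)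
    (he : (lx + ly) % 2 = 0) (hR : R ≤ m + 1) (hc : c ≤ 2 * n + 3) :
    0 ≤
      val (D R c) (tab (36 * typ m n R c + 6 * ly + lx)).1 * fz z (6 * c + lx - 1) (6 * R + ly) +
      val (D R c) (tab (36 * typ m n R c + 6 * ly + lx)).2.1 *
        fz z (6 * c + lx + 1) (6 * R + ly) +
      val (D R c) (tab (36 * typ m n R c + 6 * ly + lx)).2.2.1 *
        fz z (6 * c + lx) (6 * R + ly - 1) +
      val (D R c) (tab (36 * typ m n R c + 6 * ly + lx)).2.2.2 *
        fz z (6 * c + lx) (6 * R + ly + 1) := by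
  refine le_trans ?_ (rowge D z hz R c lx ly hx hy he hR hc)
  split_ifs <;> norm_num

/-- A cell: the values passed on downwards and to the right. -/
theorem cell (D : ℕ → ℕ → ℝ) (z : Fin (size m n) → ℝ)
    (hz : grhs ℝ m n ≤ (gmat D m n).mulVec z) (R c : ℕ) (hD : 0 ≤ D R c) (h1 : 1 ≤ R)
    (h2 : R ≤ m) (h3 : 1 ≤ c) (h4 : c ≤ 2 * n + 2) :
    fz z (6 * c + 3) (6 * R + 6) ≤ fz z (6 * c + 3) (6 * R) ∧
    fz z (6 * c + 6) (6 * R + 3) ≤ fz z (6 * c) (6 * R + 3) + D R c * fz z (6 * c + 3) (6 * R) := by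
  have ht := typ_one h1 h2 h3 h4
  have C1 := row0 D z hz R c 1 3 (by omega) (by omega) (by omega) (by omega) (by omega)
  have C2 := row0 D z hz R c 2 4 (by omega) (by omega) (by omega) (by omega) (by omega)
  have C3 := row0 D z hz R c 3 1 (by omega) (by omega) (by omega) (by omega) (by omega)
  have C4 := row0 D z hz R c 4 2 (by omega) (by omega) (by omega) (by omega) (by omega)
  have C5 := row0 D z hz R c 3 3 (by omega) (by omega) (by omega) (by omega) (by omega)
  have C6 := row0 D z hz R c 4 4 (by omega) (by omega) (by omega) (by omega) (by omega)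
  have C7 := row0 D z hz R c 5 3 (by omega) (by omega) (by omega) (by omega) (by omega)
  have C8 := row0 D z hz R c 3 5 (by omega) (by omega) (by omega) (by omega) (by omega)
  have C9 := row0 D z hz R c 2 0 (by omega) (by omega) (by omega) (by omega) (by omega)
  have C10 := row0 D z hz R c 1 1 (by omega) (by omega) (by omega) (by omega) (by omega)
  rw [ht] at C1 C2 C3 C4 C5 C6 C7 C8 C9 C10
  norm_num [tab, val_zero, val_one, val_two, val_three] at C1 C2 C3 C4 C5 C6 C7 C8 C9 C10
  have hm := mul_le_mul_of_nonneg_left (C10.trans C9) hD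
  constructor
  · linarith
  · linarith

/-- The two columns of an unknown, in the first row. -/
theorem pads (D : ℕ → ℕ → ℝ) (z : Fin (size m n) → ℝ)
    (hz : grhs ℝ m n ≤ (gmat D m n).mulVec z) (j : ℕ) (hj : j ≤ n) :
    fz z (6 * (2 * j + 1) + 3) 6 ≤ fz z (12 * j + 11) 4 ∧
    fz z (6 * (2 * j + 2) + 3) 6 ≤ -fz z (12 * j + 11) 4 := by
  have K1 := row0 D z hz 0 (2 * j + 1) 3 5 (by omega) (by omega) (by omega) (by omega) (by omega)
  have H1 := row0 D z hz 0 (2 * j + 1) 4 4 (by omega) (by omega) (by omega) (by omega) (by omega)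
  have K2 := row0 D z hz 0 (2 * j + 2) 3 5 (by omega) (by omega) (by omega) (by omega) (by omega)
  have H2 := row0 D z hz 0 (2 * j + 2) 0 4 (by omega) (by omega) (by omega) (by omega) (by omega)
  have H3 := row0 D z hz 0 (2 * j + 2) 2 4 (by omega) (by omega) (by omega) (by omega) (by omega)
  rw [typ_three (by omega) (by omega) (by omega)] at K2 H2 H3
  simp only [tab, val_zero, val_one, val_two, val_three, Nat.reduceMul, Nat.reduceAdd,
    Nat.reduceEqDiff, if_true, if_false, zero_mul, one_mul, zero_add, add_zero, neg_mul,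
    Nat.reduceSub, mul_zero] at K2 H2 H3
  have e1 : 6 * (2 * j + 2) - 1 = 12 * j + 11 := by omega
  have e2 : 6 * (2 * j + 2) + 2 - 1 = 6 * (2 * j + 2) + 1 := by omega
  have e3 : 6 * (2 * j + 1) + 4 + 1 = 12 * j + 11 := by omega
  have e4 : 6 * (2 * j + 1) + 4 - 1 = 6 * (2 * j + 1) + 3 := by omega
  have e5 : 6 * (2 * j + 2) + 2 + 1 = 6 * (2 * j + 2) + 3 := by omega
  rw [e1] at H2
  rw [e2, e5] at H3
  have hK : 0 ≤ fz z (6 * (2 * j + 1) + 3) 4 - fz z (6 * (2 * j + 1) + 3) 6 ∧
      0 ≤ fz z (12 * j + 11) 4 - fz z (6 * (2 * j + 1) + 3) 4 := by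
    rcases Nat.lt_or_ge j n with h | h
    · rw [typ_two (by omega) (by omega) (by omega)] at K1 H1
      simp only [tab, val_zero, val_one, val_two, val_three, Nat.reduceMul, Nat.reduceAdd,
        Nat.reduceEqDiff, if_true, if_false, zero_mul, one_mul, zero_add, add_zero, neg_mul,
        Nat.reduceSub, mul_zero] at K1 H1
      rw [e3, e4] at H1
      constructor <;> linarith
    · obtain rfl : j = n := by omega
      rw [typ_six] at K1 H1
      simp only [tab, val_zero, val_one, val_two, val_three, Nat.reduceMul, Nat.reduceAdd,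
        Nat.reduceEqDiff, if_true, if_false, zero_mul, one_mul, zero_add, add_zero, neg_mul,
        Nat.reduceSub, mul_zero] at K1 H1
      rw [e3, e4] at H1
      constructor <;> linarith
  constructor
  · linarith [hK.1, hK.2]
  · linarith

theorem norm (D : ℕ → ℕ → ℝ) (z : Fin (size m n) → ℝ)
    (hz : grhs ℝ m n ≤ (gmat D m n).mulVec z) : 1 ≤ fz z (12 * n + 11) 4 := by
  have N0 := rowge D z hz 0 (2 * n + 1) 5 3 (by omega) (by omega) (by omega) (by omega) (by omega)
  rw [typ_six, if_pos (by unfold top; omega)] at N0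
  simp only [tab, val_zero, val_one, val_two, val_three, Nat.reduceMul, Nat.reduceAdd,
    Nat.reduceEqDiff, if_true, if_false, zero_mul, one_mul, zero_add, add_zero, neg_mul,
    Nat.reduceSub, mul_zero] at N0
  rw [show 6 * (2 * n + 1) + 5 = 12 * n + 11 by omega] at N0
  exact N0

theorem left (D : ℕ → ℕ → ℝ) (z : Fin (size m n) → ℝ)
    (hz : grhs ℝ m n ≤ (gmat D m n).mulVec z) (R : ℕ) (h1 : 1 ≤ R) (h2 : R ≤ m) :
    fz z 6 (6 * R + 3) ≤ 0 := by
  have L := row0 D z hz R 0 5 3 (by omega) (by omega) (by omega) (by omega) (by omega)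
  rw [typ_four h1 h2] at L
  simp only [tab, val_zero, val_one, val_two, val_three, Nat.reduceMul, Nat.reduceAdd,
    Nat.reduceEqDiff, if_true, if_false, zero_mul, one_mul, zero_add, add_zero, neg_mul,
    Nat.reduceSub, mul_zero] at L
  linarith

theorem right (D : ℕ → ℕ → ℝ) (z : Fin (size m n) → ℝ)
    (hz : grhs ℝ m n ≤ (gmat D m n).mulVec z) (R : ℕ) (h1 : 1 ≤ R) (h2 : R ≤ m) :
    0 ≤ fz z (6 * (2 * n + 3)) (6 * R + 3) := by
  have L := row0 D z hz R (2 * n + 3) 1 3 (by omega) (by omega) (by omega) (by omega) (by omega)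
  rw [typ_five h1 h2] at L
  simp only [tab, val_zero, val_one, val_two, val_three, Nat.reduceMul, Nat.reduceAdd,
    Nat.reduceEqDiff, if_true, if_false, zero_mul, one_mul, zero_add, add_zero, neg_mul,
    Nat.reduceSub, mul_zero] at L
  rw [show 6 * (2 * n + 3) + 1 - 1 = 6 * (2 * n + 3) by omega] at L
  exact L

theorem sum_two (g : ℕ → ℝ) (N : ℕ) :
    ∑ k ∈ Finset.range (2 * N), g k = ∑ j ∈ Finset.range N, (g (2 * j) + g (2 * j + 1)) := by
  induction N with
  | zero => simp
  | succ N ih =>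
    rw [Finset.sum_range_succ, ← ih, show 2 * (N + 1) = 2 * N + 1 + 1 by ring,
      Finset.sum_range_succ, Finset.sum_range_succ]
    ring

/-- The homogeneous system. -/
theorem back_ext (E : ℕ → ℕ → ℝ) (D : ℕ → ℕ → ℝ)
    (hD1 : ∀ R j, D R (2 * j + 1) = max (E (R - 1) j) 0)
    (hD2 : ∀ R j, D R (2 * j + 2) = max (-E (R - 1) j) 0) (z : Fin (size m n) → ℝ)
    (hz : grhs ℝ m n ≤ (gmat D m n).mulVec z) :
    ∃ h : ℕ → ℝ, 1 ≤ h n ∧ ∀ i, i < m → 0 ≤ ∑ j ∈ Finset.range (n + 1), E i j * h j := by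
  refine ⟨fun j => fz z (12 * j + 11) 4, norm D z hz, fun i hi => ?_⟩
  have hD0 : ∀ R c, 1 ≤ c → 0 ≤ D R c := by
    intro R c hc
    rcases Nat.even_or_odd' (c - 1) with ⟨k, hk | hk⟩
    · rw [show c = 2 * k + 1 by omega, hD1]; exact le_max_right _ _
    · rw [show c = 2 * k + 2 by omega, hD2]; exact le_max_right _ _
  have hv : ∀ R c, 1 ≤ c → c ≤ 2 * n + 2 → 1 ≤ R → R ≤ m + 1 →
      fz z (6 * c + 3) (6 * R) ≤ fz z (6 * c + 3) 6 := by
    intro R c hc1 hc2 hR
    induction R, hR using Nat.le_induction with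
    | base => intro _; exact le_rfl
    | succ R hR ih =>
      intro h
      have h1 := (cell D z hz R c (hD0 R c hc1) hR (by omega) hc1 hc2).1
      rw [show 6 * (R + 1) = 6 * R + 6 by ring]
      exact h1.trans (ih (by omega))
  have hh : ∀ c, c ≤ 2 * n + 2 → fz z (6 * (c + 1)) (6 * (i + 1) + 3) ≤
      ∑ k ∈ Finset.range c, D (i + 1) (k + 1) * fz z (6 * (k + 1) + 3) 6 := by
    intro c
    induction c with
    | zero =>
      intro _
      simpa using left D z hz (i + 1) (by omega) (by omega)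
    | succ c ih =>
      intro h
      have h1 := (cell D z hz (i + 1) (c + 1) (hD0 _ _ (by omega)) (by omega) (by omega)
        (by omega) (by omega)).2
      have h2 := ih (by omega)
      have h3 := mul_le_mul_of_nonneg_left (hv (i + 1) (c + 1) (by omega) (by omega) (by omega)
        (by omega)) (hD0 (i + 1) (c + 1) (by omega))
      rw [Finset.sum_range_succ, show 6 * (c + 1 + 1) = 6 * (c + 1) + 6 by ring]
      linarith
  have h1 := right D z hz (i + 1) (by omega) (by omega)
  have h2 := hh (2 * n + 2) le_rfl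
  rw [show 2 * n + 2 = 2 * (n + 1) by ring, sum_two] at h2
  rw [show 6 * (2 * (n + 1) + 1) = 6 * (2 * n + 3) by ring] at h2
  refine (h1.trans h2).trans (Finset.sum_le_sum fun j hj => ?_)
  have hj' : j ≤ n := by have := Finset.mem_range.mp hj; omega
  have hp := pads D z hz j hj'
  have e1 := hD1 (i + 1) j
  have e2 := hD2 (i + 1) j
  rw [Nat.add_sub_cancel] at e1 e2
  rw [show 2 * j + 1 + 1 = 2 * j + 2 by ring, e1, e2]
  have g1 := mul_le_mul_of_nonneg_left hp.1 (le_max_right (E i j) 0)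
  have g2 := mul_le_mul_of_nonneg_left hp.2 (le_max_right (-E i j) 0)
  have g3 : max (E i j) 0 - max (-E i j) 0 = E i j := by
    rcases le_total 0 (E i j) with h | h
    · rw [max_eq_left h, max_eq_right (by linarith)]; ring
    · rw [max_eq_right h, max_eq_left (by linarith)]; ring
  calc _ ≤ max (E i j) 0 * fz z (12 * j + 11) 4 + max (-E i j) 0 * -fz z (12 * j + 11) 4 :=
        add_le_add g1 g2
    _ = (max (E i j) 0 - max (-E i j) 0) * fz z (12 * j + 11) 4 := by ring
    _ ≤ _ := by rw [g3]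

end Pool.Agent.R533.GU
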