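import Pool.Agent.H622R3.SM.Model

set_option autoImplicit false

/-!
# Strongly polynomial algorithms for classes of linear systems, and systems on the square grid

The machine model (`Alg`, `run`, `start`) is the one of `Pool/Agent/H622R3/SM/Model.lean`.
-/

namespace Pool.Agent.R533.GU

open Pool.Agent.H558R2 Pool.Agent.H622R3.SM

/-- With the oracle `O`, the algorithm `α` decides linear feasibility for the instances in the class
`C` in strongly polynomial time: for some polynomial `p`, on every real instance in `C` it stops with
the correct answer after at most `p (m + n)` elementary steps, never dividing by zero, and if the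
instance is rational, of encoding length `L`, then all numbers computed are rational of encoding
length at most `p (L)`. -/
def DecidesOn (O : Set (List Bool))
    (C : ∀ m n : ℕ, Matrix (Fin m) (Fin n) ℝ → (Fin m → ℝ) → Prop) (α : Alg) : Prop :=
  ∃ p : Polynomial ℕ, ∀ m n : ℕ, 1 ≤ m → 1 ≤ n →
    ∀ (A : Matrix (Fin m) (Fin n) ℝ) (b : Fin m → ℝ), C m n A b → ∃ ans nums steps,
      run O (α m n) (p.eval (m + n)) [] (start A b) = some (ans, nums, steps) ∧
      (ans = true ↔ ∃ x : Fin n → ℝ, b ≤ A.mulVec x) ∧ steps ≤ p.eval (m + n) ∧
      ∀ (A' : Matrix (Fin m) (Fin n) ℚ) (b' : Fin m → ℚ), (∀ i j, ((A' i j : ℚ) : ℝ) = A i j) →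
        (∀ i, ((b' i : ℚ) : ℝ) = b i) →
        ∀ v ∈ nums, ∃ q : ℚ, (q : ℝ) = v ∧ bitLength q ≤ p.eval (inputLength A' b')

/-- A sparse system on the square grid `A x ≥ b`. The inequalities and the unknowns can be placed
at distinct points of the plane with integer coordinates such that an unknown occurs in an inequality
only if their points are neighbours (at distance one); every row and every column of `A` has at most
three nonzero entries; the entries different from `0`, `1`, `-1` are positive, and there is at most
one of them in every row and in every column; `b` is a unit vector. -/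
structure GridSystem (m n : ℕ) (A : Matrix (Fin m) (Fin n) ℝ) (b : Fin m → ℝ) : Prop where
  /-- places of the inequalities and of the unknowns -/
  placed : ∃ (P : Fin m → ℤ × ℤ) (V : Fin n → ℤ × ℤ), P.Injective ∧ V.Injective ∧
    (∀ i j, P i ≠ V j) ∧
    ∀ i j, A i j ≠ 0 → |(P i).1 - (V j).1| + |(P i).2 - (V j).2| = 1
  /-- at most three nonzero entries in a row -/
  row_le : ∀ i, {j | A i j ≠ 0}.ncard ≤ 3
  /-- at most three nonzero entries in a column -/
  col_le : ∀ j, {i | A i j ≠ 0}.ncard ≤ 3
  /-- the entries different from `0`, `1`, `-1` are positive -/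
  entries : ∀ i j, A i j = 0 ∨ A i j = 1 ∨ A i j = -1 ∨ 0 < A i j
  /-- there is at most one of them in a row -/
  row_one : ∀ i, {j | A i j ≠ 0 ∧ A i j ≠ 1 ∧ A i j ≠ -1}.Subsingleton
  /-- there is at most one of them in a column -/
  col_one : ∀ j, {i | A i j ≠ 0 ∧ A i j ≠ 1 ∧ A i j ≠ -1}.Subsingleton
  /-- the right-hand side is a unit vector -/
  rhs : ∃ i₀, b = Pi.single i₀ 1

end Pool.Agent.R533.GU
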