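import Pool.Agent.R533.GU.Feas
import Pool.Agent.R533.GU.Defs

set_option autoImplicit false

/-! The system on the grid belongs to the class `GridSystem`. -/

namespace Pool.Agent.R533.GU

variable {m n : ℕ}

theorem tab_big (k : ℕ) (h : 250 ≤ k) : tab k = (0, 0, 0, 0) := by
  unfold tab
  rw [if_neg (by omega), if_neg (by omega), if_neg (by omega), if_neg (by omega), if_neg (by omega), if_neg (by omega), if_neg (by omega), if_neg (by omega), if_neg (by omega), if_neg (by omega), if_neg (by omega), if_neg (by omega), if_neg (by omega), if_neg (by omega), if_neg (by omega), if_neg (by omega), if_neg (by omega), if_neg (by omega), if_neg (by omega), if_neg (by omega)]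

theorem tab_row (k : ℕ) : (tab k).1 = 0 ∨ (tab k).2.1 = 0 ∨ (tab k).2.2.1 = 0 ∨
    (tab k).2.2.2 = 0 := by
  rcases Nat.lt_or_ge k 250 with h | h
  · revert k; set_option maxRecDepth 20000 in decide
  · rw [tab_big k h]; simp

theorem tab_three (k : ℕ) : (tab k).1 ≠ 3 ∧ (tab k).2.1 ≠ 3 ∧ (tab k).2.2.2 ≠ 3 := by
  rcases Nat.lt_or_ge k 250 with h | h
  · revert k; set_option maxRecDepth 20000 in decide
  · rw [tab_big k h]; simp

theorem tab_le (k : ℕ) : (tab k).1 ≤ 3 ∧ (tab k).2.1 ≤ 3 ∧ (tab k).2.2.1 ≤ 3 ∧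
    (tab k).2.2.2 ≤ 3 := by
  rcases Nat.lt_or_ge k 250 with h | h
  · revert k; set_option maxRecDepth 20000 in decide
  · rw [tab_big k h]; simp

/-- The places of the nonzero entries. -/
theorem ent_cases (D : ℕ → ℕ → ℝ) (i j : Fin (size m n)) (h : gmat D m n i j ≠ 0) :
    (posV n j = ((posC n i).1 - 1, (posC n i).2) ∧ 1 ≤ (posC n i).1 ∧
      (kin m n (posC n i).1 (posC n i).2).1 ≠ 0) ∨
    (posV n j = ((posC n i).1 + 1, (posC n i).2) ∧
      (kin m n (posC n i).1 (posC n i).2).2.1 ≠ 0) ∨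
    (posV n j = ((posC n i).1, (posC n i).2 - 1) ∧ 1 ≤ (posC n i).2 ∧
      (kin m n (posC n i).1 (posC n i).2).2.2.1 ≠ 0) ∨
    (posV n j = ((posC n i).1, (posC n i).2 + 1) ∧
      (kin m n (posC n i).1 (posC n i).2).2.2.2 ≠ 0) := by
  have hs : sel m n (posC n i).1 (posC n i).2 (posV n j).1 (posV n j).2 ≠ 0 := by
    intro e
    apply h
    simp only [gmat]
    rw [e, val_zero]
  unfold sel at hs
  split_ifs at hs with c1 c2 c3 c4
  · exact Or.inl ⟨Prod.ext (by simp only; omega) c1.1, by omega, hs⟩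
  · exact Or.inr (Or.inl ⟨Prod.ext c2.2 c2.1, hs⟩)
  · exact Or.inr (Or.inr (Or.inl ⟨Prod.ext c3.1 (by simp only; omega), by omega, hs⟩))
  · exact Or.inr (Or.inr (Or.inr ⟨Prod.ext c4.1 c4.2, hs⟩))
  · exact absurd rfl hs

theorem ent_three (D : ℕ → ℕ → ℝ) (i j : Fin (size m n)) (h : gmat D m n i j ≠ 0)
    (h1 : gmat D m n i j ≠ 1) (h2 : gmat D m n i j ≠ -1) :
    posV n j = ((posC n i).1, (posC n i).2 - 1) ∧ 1 ≤ (posC n i).2 ∧
      gmat D m n i j = D ((posC n i).2 / 6) ((posC n i).1 / 6) := by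
  have hs : sel m n (posC n i).1 (posC n i).2 (posV n j).1 (posV n j).2 = 3 := by
    have e : gmat D m n i j = val (D ((posC n i).2 / 6) ((posC n i).1 / 6))
      (sel m n (posC n i).1 (posC n i).2 (posV n j).1 (posV n j).2) := rfl
    have hle : sel m n (posC n i).1 (posC n i).2 (posV n j).1 (posV n j).2 ≤ 3 := by
      unfold sel kin
      split_ifs
      · exact (tab_le _).1
      · exact (tab_le _).2.1
      · exact (tab_le _).2.2.1
      · exact (tab_le _).2.2.2
      · omega
    rw [e] at h h1 h2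
    generalize sel m n (posC n i).1 (posC n i).2 (posV n j).1 (posV n j).2 = s at *
    interval_cases s
    · exact absurd (val_zero _) h
    · exact absurd (val_one _) h1
    · exact absurd (val_two _) h2
    · rfl
  have e2 : gmat D m n i j = D ((posC n i).2 / 6) ((posC n i).1 / 6) := by
    simp only [gmat]
    rw [hs, val_three]
  refine ⟨?_, ?_, e2⟩
  all_goals
    unfold sel kin at hs
    split_ifs at hs with c1 c2 c3 c4
    · exact absurd hs (tab_three _).1
    · exact absurd hs (tab_three _).2.1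
    · first
      | exact Prod.ext c3.1 (by simp only; omega)
      | omega
    · exact absurd hs (tab_three _).2.2

/-- Every unknown has a free side. -/
theorem tab_col : ∀ k < 36, (k % 6 + k / 6) % 2 = 1 →
    (∀ t < 7, (tab (36 * t + (6 * (k / 6) + (k % 6 + 1) % 6))).1 = 0) ∨
    (∀ t < 7, (tab (36 * t + (6 * (k / 6) + (k % 6 + 5) % 6))).2.1 = 0) ∨
    (∀ t < 7, (tab (36 * t + (6 * ((k / 6 + 1) % 6) + k % 6))).2.2.1 = 0) ∨
    (∀ t < 7, (tab (36 * t + (6 * ((k / 6 + 5) % 6) + k % 6))).2.2.2 = 0) := by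
  decide

theorem free_side (u v : ℕ) (h : (u + v) % 2 = 1) :
    (kin m n (u + 1) v).1 = 0 ∨ (1 ≤ u → (kin m n (u - 1) v).2.1 = 0) ∨
    (kin m n u (v + 1)).2.2.1 = 0 ∨ (1 ≤ v → (kin m n u (v - 1)).2.2.2 = 0) := by
  have hk : (6 * (v % 6) + u % 6) % 6 = u % 6 := by omega
  have hk' : (6 * (v % 6) + u % 6) / 6 = v % 6 := by omega
  have h1 := tab_col (6 * (v % 6) + u % 6) (by omega) (by rw [hk, hk']; omega)
  rw [hk, hk'] at h1
  unfold kin
  rcases h1 with h1 | h1 | h1 | h1
  · left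
    have h2 := h1 (typ m n (v / 6) ((u + 1) / 6)) (by have := typ_le m n (v / 6) ((u + 1) / 6); omega)
    rw [show (u + 1) % 6 = (u % 6 + 1) % 6 by omega, add_assoc]
    exact h2
  · right; left
    intro hu
    have h2 := h1 (typ m n (v / 6) ((u - 1) / 6)) (by have := typ_le m n (v / 6) ((u - 1) / 6); omega)
    rw [show (u - 1) % 6 = (u % 6 + 5) % 6 by omega, add_assoc]
    exact h2
  · right; right; left
    have h2 := h1 (typ m n ((v + 1) / 6) (u / 6)) (by have := typ_le m n ((v + 1) / 6) (u / 6); omega)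
    rw [show (v + 1) % 6 = (v % 6 + 1) % 6 by omega, add_assoc]
    exact h2
  · right; right; right
    intro hv
    have h2 := h1 (typ m n ((v - 1) / 6) (u / 6)) (by have := typ_le m n ((v - 1) / 6) (u / 6); omega)
    rw [show (v - 1) % 6 = (v % 6 + 5) % 6 by omega, add_assoc]
    exact h2

/-- A set of numbers contained in four sets with at most one element, one of them empty. -/
theorem four_sets {N : ℕ} (S : Set (Fin N)) (a b c d : ℕ) (pa pb pc pd : Prop)
    (h : ∀ j ∈ S, (pa ∧ (j : ℕ) = a) ∨ (pb ∧ (j : ℕ) = b) ∨ (pc ∧ (j : ℕ) = c) ∨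
      (pd ∧ (j : ℕ) = d)) (hn : ¬ (pa ∧ pb ∧ pc ∧ pd)) : S.ncard ≤ 3 := by
  classical
  have h1 : (Fin.val '' S).ncard = S.ncard := Set.ncard_image_of_injective _ Fin.val_injective
  rw [← h1]
  have key : ∀ x y z : ℕ, (Fin.val '' S) ⊆ (({x, y, z} : Finset ℕ) : Set ℕ) →
      (Fin.val '' S).ncard ≤ 3 := fun x y z hs => by
    refine (Set.ncard_le_ncard hs (Finset.finite_toSet _)).trans ?_
    rw [Set.ncard_coe_finset]
    exact Finset.card_le_three
  have hsub : ∀ x ∈ Fin.val '' S, (pa ∧ x = a) ∨ (pb ∧ x = b) ∨ (pc ∧ x = c) ∨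
      (pd ∧ x = d) := by
    rintro x ⟨j, hj, rfl⟩
    exact h j hj
  by_cases ha : pa
  · by_cases hb : pb
    · by_cases hc : pc
      · refine key a b c fun x hx => ?_
        have hd : ¬ pd := fun hd => hn ⟨ha, hb, hc, hd⟩
        rcases hsub x hx with ⟨_, rfl⟩ | ⟨_, rfl⟩ | ⟨_, rfl⟩ | ⟨h3, _⟩
        · simp
        · simp
        · simp
        · exact absurd h3 hd
      · refine key a b d fun x hx => ?_
        rcases hsub x hx with ⟨_, rfl⟩ | ⟨_, rfl⟩ | ⟨h3, _⟩ | ⟨_, rfl⟩
        · simp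
        · simp
        · exact absurd h3 hc
        · simp
    · refine key a c d fun x hx => ?_
      rcases hsub x hx with ⟨_, rfl⟩ | ⟨h3, _⟩ | ⟨_, rfl⟩ | ⟨_, rfl⟩
      · simp
      · exact absurd h3 hb
      · simp
      · simp
  · refine key b c d fun x hx => ?_
    rcases hsub x hx with ⟨h3, _⟩ | ⟨_, rfl⟩ | ⟨_, rfl⟩ | ⟨_, rfl⟩
    · exact absurd h3 ha
    · simp
    · simp
    · simp

theorem row_three (D : ℕ → ℕ → ℝ) (i : Fin (size m n)) :
    {j | gmat D m n i j ≠ 0}.ncard ≤ 3 := by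
  refine four_sets _ ((posC n i).2 * wid n + ((posC n i).1 - 1) / 2)
    ((posC n i).2 * wid n + ((posC n i).1 + 1) / 2)
    (((posC n i).2 - 1) * wid n + (posC n i).1 / 2)
    (((posC n i).2 + 1) * wid n + (posC n i).1 / 2)
    ((kin m n (posC n i).1 (posC n i).2).1 ≠ 0) ((kin m n (posC n i).1 (posC n i).2).2.1 ≠ 0)
    ((kin m n (posC n i).1 (posC n i).2).2.2.1 ≠ 0)
    ((kin m n (posC n i).1 (posC n i).2).2.2.2 ≠ 0) ?_ ?_
  · intro j hj
    have hi := posV_idx n j
    rcases ent_cases D i j hj with ⟨h1, _, h2⟩ | ⟨h1, h2⟩ | ⟨h1, _, h2⟩ | ⟨h1, h2⟩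
    · rw [h1] at hi; exact Or.inl ⟨h2, hi.symm⟩
    · rw [h1] at hi; exact Or.inr (Or.inl ⟨h2, hi.symm⟩)
    · rw [h1] at hi; exact Or.inr (Or.inr (Or.inl ⟨h2, hi.symm⟩))
    · rw [h1] at hi; exact Or.inr (Or.inr (Or.inr ⟨h2, hi.symm⟩))
  · rintro ⟨h1, h2, h3, h4⟩
    rcases tab_row (36 * typ m n ((posC n i).2 / 6) ((posC n i).1 / 6) +
      6 * ((posC n i).2 % 6) + (posC n i).1 % 6) with h | h | h | h
    · exact h1 h
    · exact h2 h
    · exact h3 h
    · exact h4 h

theorem col_three (D : ℕ → ℕ → ℝ) (j : Fin (size m n)) :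
    {i | gmat D m n i j ≠ 0}.ncard ≤ 3 := by
  refine four_sets _ ((posV n j).2 * wid n + ((posV n j).1 + 1) / 2)
    ((posV n j).2 * wid n + ((posV n j).1 - 1) / 2)
    (((posV n j).2 + 1) * wid n + (posV n j).1 / 2)
    (((posV n j).2 - 1) * wid n + (posV n j).1 / 2)
    ((kin m n ((posV n j).1 + 1) (posV n j).2).1 ≠ 0)
    (1 ≤ (posV n j).1 ∧ (kin m n ((posV n j).1 - 1) (posV n j).2).2.1 ≠ 0)
    ((kin m n (posV n j).1 ((posV n j).2 + 1)).2.2.1 ≠ 0)
    (1 ≤ (posV n j).2 ∧ (kin m n (posV n j).1 ((posV n j).2 - 1)).2.2.2 ≠ 0) ?_ ?_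
  · intro i hi
    have hx := posC_idx n i
    rcases ent_cases D i j hi with ⟨h1, h0, h2⟩ | ⟨h1, h2⟩ | ⟨h1, h0, h2⟩ | ⟨h1, h2⟩
    · left
      rw [h1]
      simp only
      rw [show (posC n i).1 - 1 + 1 = (posC n i).1 by omega]
      exact ⟨h2, hx.symm⟩
    · right; left
      rw [h1]
      simp only [Nat.add_sub_cancel]
      exact ⟨⟨by omega, h2⟩, hx.symm⟩
    · right; right; left
      rw [h1]
      simp only
      rw [show (posC n i).2 - 1 + 1 = (posC n i).2 by omega]
      exact ⟨h2, hx.symm⟩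
    · right; right; right
      rw [h1]
      simp only [Nat.add_sub_cancel]
      exact ⟨⟨by omega, h2⟩, hx.symm⟩
  · rintro ⟨h1, h2, h3, h4⟩
    rcases free_side (m := m) (n := n) (posV n j).1 (posV n j).2 (posV_odd n j) with h | h | h | h
    · exact h1 h
    · exact h2.2 (h h2.1)
    · exact h3 h
    · exact h4.2 (h h4.1)

theorem top_lt : top n < size m n := by
  have e : top n = 3 * wid n + (12 * n + 11) / 2 := by unfold top; omega
  rw [e]
  exact idx_lt (by omega) (by unfold wid; omega)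

theorem posV_inj : Function.Injective (fun j : Fin (size m n) => posV n j) := by
  intro j j' h
  have h1 := posV_idx n j
  have h2 := posV_idx n j'
  simp only at h
  rw [h] at h1
  exact Fin.ext (h1.symm.trans h2)

theorem posC_inj : Function.Injective (fun j : Fin (size m n) => posC n j) := by
  intro j j' h
  have h1 := posC_idx n j
  have h2 := posC_idx n j'
  simp only at h
  rw [h] at h1
  exact Fin.ext (h1.symm.trans h2)

theorem grid_system (D : ℕ → ℕ → ℝ) (hD : ∀ R c, 0 ≤ D R c) :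
    GridSystem (size m n) (size m n) (gmat D m n) (grhs ℝ m n) where
  placed := by
    refine ⟨fun i => (((posC n i).1 : ℤ), ((posC n i).2 : ℤ)),
      fun j => (((posV n j).1 : ℤ), ((posV n j).2 : ℤ)), fun i i' h => ?_, fun j j' h => ?_,
      fun i j h => ?_, fun i j h => ?_⟩
    · simp only [Prod.mk.injEq, Nat.cast_inj] at h
      exact posC_inj (Prod.ext h.1 h.2)
    · simp only [Prod.mk.injEq, Nat.cast_inj] at h
      exact posV_inj (Prod.ext h.1 h.2)
    · simp only [Prod.mk.injEq, Nat.cast_inj] at h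
      have h1 := posC_even n i
      have h2 := posV_odd n j
      omega
    · simp only
      rcases ent_cases D i j h with ⟨h1, h0, _⟩ | ⟨h1, _⟩ | ⟨h1, h0, _⟩ | ⟨h1, _⟩
      · rw [h1]
        simp only
        rw [Nat.cast_sub h0]
        norm_num
      · rw [h1]
        simp only
        push_cast
        rw [show ((posC n i).1 : ℤ) - ((posC n i).1 + 1) = -1 by ring]
        norm_num
      · rw [h1]
        simp only
        rw [Nat.cast_sub h0]
        norm_num
      · rw [h1]
        simp only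
        push_cast
        rw [show ((posC n i).2 : ℤ) - ((posC n i).2 + 1) = -1 by ring]
        norm_num
  row_le := row_three D
  col_le := col_three D
  entries := fun i j => by
    by_cases h0 : gmat D m n i j = 0
    · exact Or.inl h0
    by_cases h1 : gmat D m n i j = 1
    · exact Or.inr (Or.inl h1)
    by_cases h2 : gmat D m n i j = -1
    · exact Or.inr (Or.inr (Or.inl h2))
    right; right; right
    have h3 := (ent_three D i j h0 h1 h2).2.2
    exact lt_of_le_of_ne (by rw [h3]; exact hD _ _) (Ne.symm h0)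
  row_one := fun i j hj j' hj' => by
    have h1 := (ent_three D i j hj.1 hj.2.1 hj.2.2).1
    have h2 := (ent_three D i j' hj'.1 hj'.2.1 hj'.2.2).1
    exact posV_inj (h1.trans h2.symm)
  col_one := fun j i hi i' hi' => by
    have h1 := ent_three D i j hi.1 hi.2.1 hi.2.2
    have h2 := ent_three D i' j hi'.1 hi'.2.1 hi'.2.2
    have h3 := h1.1.symm.trans h2.1
    simp only [Prod.mk.injEq] at h3
    have h4 : (posC n i).2 = (posC n i').2 := by
      have := h1.2.1
      have := h2.2.1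
      omega
    exact posC_inj (Prod.ext h3.1 h4)
  rhs := ⟨⟨top n, top_lt⟩, by
    funext i
    simp only [grhs, Pi.single_apply]
    by_cases h : (i : ℕ) = top n
    · rw [if_pos h, if_pos (Fin.ext h)]
    · rw [if_neg h, if_neg (fun e => h (by rw [e]))]⟩

end Pool.Agent.R533.GU
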