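import Pool.Agent.R533.GU.Typ

set_option autoImplicit false
set_option linter.unusedSimpArgs false
set_option linter.unusedVariables false
set_option linter.unreachableTactic false
set_option linter.unnecessarySeqFocus false
set_option linter.unusedTactic false

/-! From a solution of `A x ≥ b` to a solution of the system on the grid. -/

namespace Pool.Agent.R533.GU

variable {m n : ℕ}

/-- Partial sums. -/
noncomputable def psum (D : ℕ → ℕ → ℝ) (z : ℕ → ℝ) (R c : ℕ) : ℝ :=
  ∑ k ∈ Finset.range (c - 1), D R (k + 1) * z (k + 1)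

theorem psum_succ (D : ℕ → ℕ → ℝ) (z : ℕ → ℝ) (R c : ℕ) (hc : 1 ≤ c) :
    psum D z R (c + 1) = psum D z R c + D R c * z c := by
  obtain ⟨c, rfl⟩ : ∃ c', c = c' + 1 := ⟨c - 1, by omega⟩
  unfold psum
  rw [Nat.add_sub_cancel, Nat.add_sub_cancel, Finset.sum_range_succ]

/-- The values in a cell. -/
noncomputable def loc (D : ℕ → ℕ → ℝ) (z : ℕ → ℝ) (R c lx ly : ℕ) : ℝ :=
  if lx = 0 ∧ ly = 3 then psum D z R c
  else if lx = 2 ∧ ly = 3 then psum D z R (c + 1)
  else if lx = 3 ∧ ly = 4 ∧ R ≠ 0 then psum D z R (c + 1)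
  else if lx = 4 ∧ ly = 3 then psum D z R (c + 1) + z c
  else z c

/-- The solution of the system on the grid. -/
noncomputable def sol (m n : ℕ) (D : ℕ → ℕ → ℝ) (z : ℕ → ℝ) : Fin (size m n) → ℝ := fun j =>
  loc D z ((posV n j).2 / 6) ((posV n j).1 / 6) ((posV n j).1 % 6) ((posV n j).2 % 6)

theorem ev (D : ℕ → ℕ → ℝ) (z : ℕ → ℝ) (R c lx ly u v : ℕ) (hu : u = 6 * c + lx)
    (hv : v = 6 * R + ly) (hx : lx < 6) (hy : ly < 6) (hR : R ≤ m + 1) (hc : c ≤ 2 * n + 3)
    (ho : (lx + ly) % 2 = 1) : fz (sol m n D z) u v = loc D z R c lx ly := by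
  have hxw : 6 * c + lx < 2 * wid n := by unfold wid; omega
  have hyh : 6 * R + ly < 6 * (m + 2) := by omega
  have hi := idx_lt hyh hxw
  subst hu hv
  unfold fz
  rw [dif_pos ⟨hi, hxw, by omega⟩]
  unfold sol
  rw [posV_of n _ _ (by omega) hxw, show (6 * R + ly) / 6 = R by omega,
    show (6 * c + lx) / 6 = c by omega, show (6 * R + ly) % 6 = ly by omega,
    show (6 * c + lx) % 6 = lx by omega]

theorem rowForth (D : ℕ → ℕ → ℝ) (z : ℕ → ℝ) (hz2 : ∀ j, z (2 * j + 2) = -z (2 * j + 1))
    (hz1 : 0 ≤ z (2 * n + 1)) (hs : ∀ R, 1 ≤ R → R ≤ m → 0 ≤ psum D z R (2 * n + 3))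
    (R c lx ly : ℕ) (hx : lx < 6) (hy : ly < 6) :
    0 ≤
      val (D R c) (tab (36 * typ m n R c + 6 * ly + lx)).1 *
        fz (sol m n D z) (6 * c + lx - 1) (6 * R + ly) +
      val (D R c) (tab (36 * typ m n R c + 6 * ly + lx)).2.1 *
        fz (sol m n D z) (6 * c + lx + 1) (6 * R + ly) +
      val (D R c) (tab (36 * typ m n R c + 6 * ly + lx)).2.2.1 *
        fz (sol m n D z) (6 * c + lx) (6 * R + ly - 1) +
      val (D R c) (tab (36 * typ m n R c + 6 * ly + lx)).2.2.2 *
        fz (sol m n D z) (6 * c + lx) (6 * R + ly + 1) := by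
  have htl := typ_le m n R c
  obtain ⟨k, hk⟩ : ∃ k, k = 36 * typ m n R c + 6 * ly + lx := ⟨_, rfl⟩
  rw [← hk]
  by_cases h55 : k = 55
  · -- type 1, point (1, 3)
    rw [h55, show tab 55 = (1, 2, 3, 0) from rfl]
    obtain ⟨rfl, rfl, ht⟩ : lx = 1 ∧ ly = 3 ∧ typ m n R c = 1 := by omega
    have hb := of_typ_one ht
    have eL := ev (m := m) (n := n) D z R c 0 3 (6 * c + 1 - 1) (6 * R + 3) (by omega) (by omega) (by omega) (by omega) (by omega) (by omega) (by omega)
    have eR := ev (m := m) (n := n) D z R c 2 3 (6 * c + 1 + 1) (6 * R + 3) (by omega) (by omega) (by omega) (by omega) (by omega) (by omega) (by omega)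
    have eU := ev (m := m) (n := n) D z R c 1 2 (6 * c + 1) (6 * R + 3 - 1) (by omega) (by omega) (by omega) (by omega) (by omega) (by omega) (by omega)
    simp only [val_zero, val_one, val_two, val_three, zero_mul]
    rw [eL, eR, eU]
    have hR0 : R ≠ 0 := by omega
    have hp := psum_succ D z R c (by omega)
    simp [loc, hR0] <;> linarith
  by_cases h62 : k = 62
  · -- type 1, point (2, 4)
    rw [h62, show tab 62 = (0, 1, 2, 0) from rfl]
    obtain ⟨rfl, rfl, ht⟩ : lx = 2 ∧ ly = 4 ∧ typ m n R c = 1 := by omega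
    have hb := of_typ_one ht
    have eR := ev (m := m) (n := n) D z R c 3 4 (6 * c + 2 + 1) (6 * R + 4) (by omega) (by omega) (by omega) (by omega) (by omega) (by omega) (by omega)
    have eU := ev (m := m) (n := n) D z R c 2 3 (6 * c + 2) (6 * R + 4 - 1) (by omega) (by omega) (by omega) (by omega) (by omega) (by omega) (by omega)
    simp only [val_zero, val_one, val_two, val_three, zero_mul]
    rw [eR, eU]
    have hR0 : R ≠ 0 := by omega
    have hp := psum_succ D z R c (by omega)
    simp [loc, hR0] <;> linarith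
  by_cases h45 : k = 45
  · -- type 1, point (3, 1)
    rw [h45, show tab 45 = (0, 0, 1, 2) from rfl]
    obtain ⟨rfl, rfl, ht⟩ : lx = 3 ∧ ly = 1 ∧ typ m n R c = 1 := by omega
    have hb := of_typ_one ht
    have eU := ev (m := m) (n := n) D z R c 3 0 (6 * c + 3) (6 * R + 1 - 1) (by omega) (by omega) (by omega) (by omega) (by omega) (by omega) (by omega)
    have eD := ev (m := m) (n := n) D z R c 3 2 (6 * c + 3) (6 * R + 1 + 1) (by omega) (by omega) (by omega) (by omega) (by omega) (by omega) (by omega)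
    simp only [val_zero, val_one, val_two, val_three, zero_mul]
    rw [eU, eD]
    have hR0 : R ≠ 0 := by omega
    have hp := psum_succ D z R c (by omega)
    simp [loc, hR0] <;> linarith
  by_cases h52 : k = 52
  · -- type 1, point (4, 2)
    rw [h52, show tab 52 = (2, 1, 0, 0) from rfl]
    obtain ⟨rfl, rfl, ht⟩ : lx = 4 ∧ ly = 2 ∧ typ m n R c = 1 := by omega
    have hb := of_typ_one ht
    have eL := ev (m := m) (n := n) D z R c 3 2 (6 * c + 4 - 1) (6 * R + 2) (by omega) (by omega) (by omega) (by omega) (by omega) (by omega) (by omega)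
    have eR := ev (m := m) (n := n) D z R c 5 2 (6 * c + 4 + 1) (6 * R + 2) (by omega) (by omega) (by omega) (by omega) (by omega) (by omega) (by omega)
    simp only [val_zero, val_one, val_two, val_three, zero_mul]
    rw [eL, eR]
    have hR0 : R ≠ 0 := by omega
    have hp := psum_succ D z R c (by omega)
    simp [loc, hR0] <;> linarith
  by_cases h57 : k = 57
  · -- type 1, point (3, 3)
    rw [h57, show tab 57 = (1, 2, 1, 0) from rfl]
    obtain ⟨rfl, rfl, ht⟩ : lx = 3 ∧ ly = 3 ∧ typ m n R c = 1 := by omega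
    have hb := of_typ_one ht
    have eL := ev (m := m) (n := n) D z R c 2 3 (6 * c + 3 - 1) (6 * R + 3) (by omega) (by omega) (by omega) (by omega) (by omega) (by omega) (by omega)
    have eR := ev (m := m) (n := n) D z R c 4 3 (6 * c + 3 + 1) (6 * R + 3) (by omega) (by omega) (by omega) (by omega) (by omega) (by omega) (by omega)
    have eU := ev (m := m) (n := n) D z R c 3 2 (6 * c + 3) (6 * R + 3 - 1) (by omega) (by omega) (by omega) (by omega) (by omega) (by omega) (by omega)
    simp only [val_zero, val_one, val_two, val_three, zero_mul]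
    rw [eL, eR, eU]
    have hR0 : R ≠ 0 := by omega
    have hp := psum_succ D z R c (by omega)
    simp [loc, hR0] <;> linarith
  by_cases h64 : k = 64
  · -- type 1, point (4, 4)
    rw [h64, show tab 64 = (2, 0, 1, 2) from rfl]
    obtain ⟨rfl, rfl, ht⟩ : lx = 4 ∧ ly = 4 ∧ typ m n R c = 1 := by omega
    have hb := of_typ_one ht
    have eL := ev (m := m) (n := n) D z R c 3 4 (6 * c + 4 - 1) (6 * R + 4) (by omega) (by omega) (by omega) (by omega) (by omega) (by omega) (by omega)
    have eU := ev (m := m) (n := n) D z R c 4 3 (6 * c + 4) (6 * R + 4 - 1) (by omega) (by omega) (by omega) (by omega) (by omega) (by omega) (by omega)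
    have eD := ev (m := m) (n := n) D z R c 4 5 (6 * c + 4) (6 * R + 4 + 1) (by omega) (by omega) (by omega) (by omega) (by omega) (by omega) (by omega)
    simp only [val_zero, val_one, val_two, val_three, zero_mul]
    rw [eL, eU, eD]
    have hR0 : R ≠ 0 := by omega
    have hp := psum_succ D z R c (by omega)
    simp [loc, hR0] <;> linarith
  by_cases h59 : k = 59
  · -- type 1, point (5, 3)
    rw [h59, show tab 59 = (1, 2, 2, 0) from rfl]
    obtain ⟨rfl, rfl, ht⟩ : lx = 5 ∧ ly = 3 ∧ typ m n R c = 1 := by omega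
    have hb := of_typ_one ht
    have eL := ev (m := m) (n := n) D z R c 4 3 (6 * c + 5 - 1) (6 * R + 3) (by omega) (by omega) (by omega) (by omega) (by omega) (by omega) (by omega)
    have eR := ev (m := m) (n := n) D z R (c + 1) 0 3 (6 * c + 5 + 1) (6 * R + 3) (by omega) (by omega) (by omega) (by omega) (by omega) (by omega) (by omega)
    have eU := ev (m := m) (n := n) D z R c 5 2 (6 * c + 5) (6 * R + 3 - 1) (by omega) (by omega) (by omega) (by omega) (by omega) (by omega) (by omega)
    simp only [val_zero, val_one, val_two, val_three, zero_mul]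
    rw [eL, eR, eU]
    have hR0 : R ≠ 0 := by omega
    have hp := psum_succ D z R c (by omega)
    simp [loc, hR0] <;> linarith
  by_cases h69 : k = 69
  · -- type 1, point (3, 5)
    rw [h69, show tab 69 = (0, 1, 0, 2) from rfl]
    obtain ⟨rfl, rfl, ht⟩ : lx = 3 ∧ ly = 5 ∧ typ m n R c = 1 := by omega
    have hb := of_typ_one ht
    have eR := ev (m := m) (n := n) D z R c 4 5 (6 * c + 3 + 1) (6 * R + 5) (by omega) (by omega) (by omega) (by omega) (by omega) (by omega) (by omega)
    have eD := ev (m := m) (n := n) D z (R + 1) c 3 0 (6 * c + 3) (6 * R + 5 + 1) (by omega) (by omega) (by omega) (by omega) (by omega) (by omega) (by omega)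
    simp only [val_zero, val_one, val_two, val_three, zero_mul]
    rw [eR, eD]
    have hR0 : R ≠ 0 := by omega
    have hp := psum_succ D z R c (by omega)
    simp [loc, hR0] <;> linarith
  by_cases h38 : k = 38
  · -- type 1, point (2, 0)
    rw [h38, show tab 38 = (2, 1, 0, 0) from rfl]
    obtain ⟨rfl, rfl, ht⟩ : lx = 2 ∧ ly = 0 ∧ typ m n R c = 1 := by omega
    have hb := of_typ_one ht
    have eL := ev (m := m) (n := n) D z R c 1 0 (6 * c + 2 - 1) (6 * R + 0) (by omega) (by omega) (by omega) (by omega) (by omega) (by omega) (by omega)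
    have eR := ev (m := m) (n := n) D z R c 3 0 (6 * c + 2 + 1) (6 * R + 0) (by omega) (by omega) (by omega) (by omega) (by omega) (by omega) (by omega)
    simp only [val_zero, val_one, val_two, val_three, zero_mul]
    rw [eL, eR]
    have hR0 : R ≠ 0 := by omega
    have hp := psum_succ D z R c (by omega)
    simp [loc, hR0] <;> linarith
  by_cases h43 : k = 43
  · -- type 1, point (1, 1)
    rw [h43, show tab 43 = (0, 0, 1, 2) from rfl]
    obtain ⟨rfl, rfl, ht⟩ : lx = 1 ∧ ly = 1 ∧ typ m n R c = 1 := by omega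
    have hb := of_typ_one ht
    have eU := ev (m := m) (n := n) D z R c 1 0 (6 * c + 1) (6 * R + 1 - 1) (by omega) (by omega) (by omega) (by omega) (by omega) (by omega) (by omega)
    have eD := ev (m := m) (n := n) D z R c 1 2 (6 * c + 1) (6 * R + 1 + 1) (by omega) (by omega) (by omega) (by omega) (by omega) (by omega) (by omega)
    simp only [val_zero, val_one, val_two, val_three, zero_mul]
    rw [eU, eD]
    have hR0 : R ≠ 0 := by omega
    have hp := psum_succ D z R c (by omega)
    simp [loc, hR0] <;> linarith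
  by_cases h105 : k = 105
  · -- type 2, point (3, 5)
    rw [h105, show tab 105 = (0, 0, 1, 2) from rfl]
    obtain ⟨rfl, rfl, ht⟩ : lx = 3 ∧ ly = 5 ∧ typ m n R c = 2 := by omega
    have hb := of_typ_two ht
    have eU := ev (m := m) (n := n) D z R c 3 4 (6 * c + 3) (6 * R + 5 - 1) (by omega) (by omega) (by omega) (by omega) (by omega) (by omega) (by omega)
    have eD := ev (m := m) (n := n) D z (R + 1) c 3 0 (6 * c + 3) (6 * R + 5 + 1) (by omega) (by omega) (by omega) (by omega) (by omega) (by omega) (by omega)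
    simp only [val_zero, val_one, val_two, val_three, zero_mul]
    rw [eU, eD]
    have hR0 : R = 0 := by omega
    simp [loc, hR0] <;> linarith
  by_cases h100 : k = 100
  · -- type 2, point (4, 4)
    rw [h100, show tab 100 = (2, 1, 0, 0) from rfl]
    obtain ⟨rfl, rfl, ht⟩ : lx = 4 ∧ ly = 4 ∧ typ m n R c = 2 := by omega
    have hb := of_typ_two ht
    have eL := ev (m := m) (n := n) D z R c 3 4 (6 * c + 4 - 1) (6 * R + 4) (by omega) (by omega) (by omega) (by omega) (by omega) (by omega) (by omega)
    have eR := ev (m := m) (n := n) D z R c 5 4 (6 * c + 4 + 1) (6 * R + 4) (by omega) (by omega) (by omega) (by omega) (by omega) (by omega) (by omega)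
    simp only [val_zero, val_one, val_two, val_three, zero_mul]
    rw [eL, eR]
    have hR0 : R = 0 := by omega
    simp [loc, hR0] <;> linarith
  by_cases h249 : k = 249
  · -- type 6, point (3, 5)
    rw [h249, show tab 249 = (0, 0, 1, 2) from rfl]
    obtain ⟨rfl, rfl, ht⟩ : lx = 3 ∧ ly = 5 ∧ typ m n R c = 6 := by omega
    have hb := of_typ_six ht
    have eU := ev (m := m) (n := n) D z R c 3 4 (6 * c + 3) (6 * R + 5 - 1) (by omega) (by omega) (by omega) (by omega) (by omega) (by omega) (by omega)
    have eD := ev (m := m) (n := n) D z (R + 1) c 3 0 (6 * c + 3) (6 * R + 5 + 1) (by omega) (by omega) (by omega) (by omega) (by omega) (by omega) (by omega)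
    simp only [val_zero, val_one, val_two, val_three, zero_mul]
    rw [eU, eD]
    have hR0 : R = 0 := by omega
    simp [loc, hR0] <;> linarith
  by_cases h244 : k = 244
  · -- type 6, point (4, 4)
    rw [h244, show tab 244 = (2, 1, 0, 0) from rfl]
    obtain ⟨rfl, rfl, ht⟩ : lx = 4 ∧ ly = 4 ∧ typ m n R c = 6 := by omega
    have hb := of_typ_six ht
    have eL := ev (m := m) (n := n) D z R c 3 4 (6 * c + 4 - 1) (6 * R + 4) (by omega) (by omega) (by omega) (by omega) (by omega) (by omega) (by omega)
    have eR := ev (m := m) (n := n) D z R c 5 4 (6 * c + 4 + 1) (6 * R + 4) (by omega) (by omega) (by omega) (by omega) (by omega) (by omega) (by omega)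
    simp only [val_zero, val_one, val_two, val_three, zero_mul]
    rw [eL, eR]
    have hR0 : R = 0 := by omega
    simp [loc, hR0] <;> linarith
  by_cases h239 : k = 239
  · -- type 6, point (5, 3)
    rw [h239, show tab 239 = (0, 0, 0, 1) from rfl]
    obtain ⟨rfl, rfl, ht⟩ : lx = 5 ∧ ly = 3 ∧ typ m n R c = 6 := by omega
    have hb := of_typ_six ht
    have eD := ev (m := m) (n := n) D z R c 5 4 (6 * c + 5) (6 * R + 3 + 1) (by omega) (by omega) (by omega) (by omega) (by omega) (by omega) (by omega)
    simp only [val_zero, val_one, val_two, val_three, zero_mul]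
    rw [eD]
    have hR0 : R = 0 := by omega
    have hp := hz1
    rw [← hb.2] at hp
    simp [loc, hR0] <;> linarith
  by_cases h141 : k = 141
  · -- type 3, point (3, 5)
    rw [h141, show tab 141 = (0, 0, 1, 2) from rfl]
    obtain ⟨rfl, rfl, ht⟩ : lx = 3 ∧ ly = 5 ∧ typ m n R c = 3 := by omega
    have hb := of_typ_three ht
    have eU := ev (m := m) (n := n) D z R c 3 4 (6 * c + 3) (6 * R + 5 - 1) (by omega) (by omega) (by omega) (by omega) (by omega) (by omega) (by omega)
    have eD := ev (m := m) (n := n) D z (R + 1) c 3 0 (6 * c + 3) (6 * R + 5 + 1) (by omega) (by omega) (by omega) (by omega) (by omega) (by omega) (by omega)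
    simp only [val_zero, val_one, val_two, val_three, zero_mul]
    rw [eU, eD]
    have hR0 : R = 0 := by omega
    simp [loc, hR0] <;> linarith
  by_cases h132 : k = 132
  · -- type 3, point (0, 4)
    rw [h132, show tab 132 = (2, 2, 0, 0) from rfl]
    obtain ⟨rfl, rfl, ht⟩ : lx = 0 ∧ ly = 4 ∧ typ m n R c = 3 := by omega
    have hb := of_typ_three ht
    have eL := ev (m := m) (n := n) D z R (c - 1) 5 4 (6 * c + 0 - 1) (6 * R + 4) (by omega) (by omega) (by omega) (by omega) (by omega) (by omega) (by omega)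
    have eR := ev (m := m) (n := n) D z R c 1 4 (6 * c + 0 + 1) (6 * R + 4) (by omega) (by omega) (by omega) (by omega) (by omega) (by omega) (by omega)
    simp only [val_zero, val_one, val_two, val_three, zero_mul]
    rw [eL, eR]
    have hR0 : R = 0 := by omega
    obtain ⟨j, rfl⟩ : ∃ j, c = 2 * j + 2 := ⟨(c - 2) / 2, by omega⟩
    have hj := hz2 j
    rw [show 2 * j + 2 - 1 = 2 * j + 1 by omega]
    simp [loc, hR0] <;> linarith
  by_cases h134 : k = 134
  · -- type 3, point (2, 4)
    rw [h134, show tab 134 = (1, 2, 0, 0) from rfl]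
    obtain ⟨rfl, rfl, ht⟩ : lx = 2 ∧ ly = 4 ∧ typ m n R c = 3 := by omega
    have hb := of_typ_three ht
    have eL := ev (m := m) (n := n) D z R c 1 4 (6 * c + 2 - 1) (6 * R + 4) (by omega) (by omega) (by omega) (by omega) (by omega) (by omega) (by omega)
    have eR := ev (m := m) (n := n) D z R c 3 4 (6 * c + 2 + 1) (6 * R + 4) (by omega) (by omega) (by omega) (by omega) (by omega) (by omega) (by omega)
    simp only [val_zero, val_one, val_two, val_three, zero_mul]
    rw [eL, eR]
    have hR0 : R = 0 := by omega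
    simp [loc, hR0] <;> linarith
  by_cases h167 : k = 167
  · -- type 4, point (5, 3)
    rw [h167, show tab 167 = (0, 2, 0, 0) from rfl]
    obtain ⟨rfl, rfl, ht⟩ : lx = 5 ∧ ly = 3 ∧ typ m n R c = 4 := by omega
    have hb := of_typ_four ht
    have eR := ev (m := m) (n := n) D z R (c + 1) 0 3 (6 * c + 5 + 1) (6 * R + 3) (by omega) (by omega) (by omega) (by omega) (by omega) (by omega) (by omega)
    simp only [val_zero, val_one, val_two, val_three, zero_mul]
    rw [eR]
    have hR0 : R ≠ 0 := by omega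
    have hp : psum D z R (c + 1) = 0 := by rw [hb.2.2]; simp [psum]
    simp [loc, hR0] <;> linarith
  by_cases h199 : k = 199
  · -- type 5, point (1, 3)
    rw [h199, show tab 199 = (1, 0, 0, 0) from rfl]
    obtain ⟨rfl, rfl, ht⟩ : lx = 1 ∧ ly = 3 ∧ typ m n R c = 5 := by omega
    have hb := of_typ_five ht
    have eL := ev (m := m) (n := n) D z R c 0 3 (6 * c + 1 - 1) (6 * R + 3) (by omega) (by omega) (by omega) (by omega) (by omega) (by omega) (by omega)
    simp only [val_zero, val_one, val_two, val_three, zero_mul]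
    rw [eL]
    have hR0 : R ≠ 0 := by omega
    have hp := hs R (by omega) (by omega)
    rw [← hb.2.2] at hp
    simp [loc, hR0] <;> linarith
  have h0 : tab k = (0, 0, 0, 0) := by
    unfold tab
    rw [if_neg h55, if_neg h62, if_neg h45, if_neg h52, if_neg h57, if_neg h64, if_neg h59, if_neg h69, if_neg h38, if_neg h43, if_neg h105, if_neg h100, if_neg h249, if_neg h244, if_neg h239, if_neg h141, if_neg h132, if_neg h134, if_neg h167, if_neg h199]
  rw [h0]
  simp only [val_zero, zero_mul]
  norm_num

theorem max_sub (a : ℝ) : max a 0 - max (-a) 0 = a := by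
  rcases le_total 0 a with h | h
  · rw [max_eq_left h, max_eq_right (by linarith)]; ring
  · rw [max_eq_right h, max_eq_left (by linarith)]; ring

theorem sum_two' (g : ℕ → ℝ) (N : ℕ) :
    ∑ k ∈ Finset.range (2 * N), g k = ∑ j ∈ Finset.range N, (g (2 * j) + g (2 * j + 1)) := by
  induction N with
  | zero => simp
  | succ N ih =>
    rw [Finset.sum_range_succ, ← ih, show 2 * (N + 1) = 2 * N + 1 + 1 by ring,
      Finset.sum_range_succ, Finset.sum_range_succ]
    ring

/-- The homogeneous system. -/
theorem forth_ext (E : ℕ → ℕ → ℝ) (D : ℕ → ℕ → ℝ)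
    (hD1 : ∀ R j, D R (2 * j + 1) = max (E (R - 1) j) 0)
    (hD2 : ∀ R j, D R (2 * j + 2) = max (-E (R - 1) j) 0) (h : ℕ → ℝ) (hn : 1 ≤ h n)
    (hs : ∀ i, i < m → 0 ≤ ∑ j ∈ Finset.range (n + 1), E i j * h j) :
    ∃ z : Fin (size m n) → ℝ, grhs ℝ m n ≤ (gmat D m n).mulVec z := by
  let z : ℕ → ℝ := fun c => if c % 2 = 1 then h ((c - 1) / 2) else -h ((c - 1) / 2)
  have z1 : ∀ j, z (2 * j + 1) = h j := fun j => by
    simp only [z]
    rw [if_pos (by omega), show (2 * j + 1 - 1) / 2 = j by omega]
  have z2 : ∀ j, z (2 * j + 2) = -h j := fun j => by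
    simp only [z]
    rw [if_neg (by omega), show (2 * j + 2 - 1) / 2 = j by omega]
  have hp : ∀ R, 1 ≤ R → R ≤ m → 0 ≤ psum D z R (2 * n + 3) := by
    intro R h1 h2
    have h3 := hs (R - 1) (by omega)
    unfold psum
    rw [show 2 * n + 3 - 1 = 2 * (n + 1) by omega, sum_two']
    refine h3.trans (le_of_eq (Finset.sum_congr rfl fun j _ => ?_))
    rw [show 2 * j + 1 + 1 = 2 * j + 2 by ring, z1, z2, hD1, hD2]
    nth_rw 1 [← max_sub (E (R - 1) j)]
    ring
  have h21 : ∀ j, z (2 * j + 2) = -z (2 * j + 1) := fun j => by rw [z1, z2]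
  refine ⟨sol m n D z, fun i => ?_⟩
  rw [row_eq]
  by_cases hi : (i : ℕ) = top n
  · have hp : posC n i = (12 * n + 11, 3) := by
      have e : top n = 3 * wid n + (12 * n + 11) / 2 := by unfold top; omega
      rw [hi, e]
      exact posC_of n _ _ (by omega) (by unfold wid; omega)
    have hk : kin m n (12 * n + 11) 3 = (0, 0, 0, 1) := by
      rw [show 12 * n + 11 = 6 * (2 * n + 1) + 5 by ring, show (3 : ℕ) = 6 * 0 + 3 by norm_num,
        kin_loc m n 0 (2 * n + 1) 5 3 (by omega) (by omega), typ_six]
      rfl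
    rw [hp]
    simp only [hk, val_zero, val_one, zero_mul]
    have e := ev (m := m) (n := n) D z 0 (2 * n + 1) 5 4 (12 * n + 11) (3 + 1) (by omega)
      (by omega) (by omega) (by omega) (by omega) (by omega) (by omega)
    rw [e]
    simp only [grhs, hi]
    simp only [loc]
    norm_num
    rw [z1]
    exact hn
  · have h0 : grhs ℝ m n i = 0 := by
      simp only [grhs]
      rw [if_neg hi]
    rw [h0]
    have hx := Nat.div_add_mod (posC n i).1 6
    have hy := Nat.div_add_mod (posC n i).2 6
    have hr := rowForth (m := m) (n := n) D z h21 (by rw [z1]; linarith) hp ((posC n i).2 / 6)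
      ((posC n i).1 / 6) ((posC n i).1 % 6) ((posC n i).2 % 6) (Nat.mod_lt _ (by norm_num))
      (Nat.mod_lt _ (by norm_num))
    rw [hx, hy] at hr
    exact hr

end Pool.Agent.R533.GU
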