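import Pool.Agent.R533.GU.Back
import Pool.Agent.R533.GU.Forth

set_option autoImplicit false

/-! The system on the grid is solvable iff `A x ≥ b` is. -/

namespace Pool.Agent.R533.GU

variable {m n : ℕ}

theorem dat_odd {K : Type*} [Field K] [LinearOrder K] (A : Matrix (Fin m) (Fin n) K)
    (b : Fin m → K) (R j : ℕ) : dat A b R (2 * j + 1) = max (ext A b (R - 1) j) 0 := by
  unfold dat
  rw [if_pos (by omega), show (2 * j + 1 - 1) / 2 = j by omega]

theorem dat_even {K : Type*} [Field K] [LinearOrder K] (A : Matrix (Fin m) (Fin n) K)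
    (b : Fin m → K) (R j : ℕ) : dat A b R (2 * j + 2) = max (-ext A b (R - 1) j) 0 := by
  unfold dat
  rw [if_neg (by omega), show (2 * j + 2 - 1) / 2 = j by omega]

theorem dat_nonneg {K : Type*} [Field K] [LinearOrder K] (A : Matrix (Fin m) (Fin n) K)
    (b : Fin m → K) (R c : ℕ) : 0 ≤ dat A b R c := by
  unfold dat
  split_ifs <;> exact le_max_right _ _

theorem ext_sum (A : Matrix (Fin m) (Fin n) ℝ) (b : Fin m → ℝ) (i : Fin m) (h : ℕ → ℝ) :
    ∑ j ∈ Finset.range (n + 1), ext A b i j * h j =
      ∑ j : Fin n, A i j * h j - b i * h n := by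
  rw [Finset.sum_range_succ, Finset.sum_range]
  have h1 : ext A b i n = -b i := by
    unfold ext
    rw [dif_pos i.2, dif_neg (lt_irrefl n), if_pos rfl]
  have h2 : ∀ j : Fin n, ext A b i j = A i j := fun j => by
    unfold ext
    rw [dif_pos i.2, dif_pos j.2]
  rw [h1]
  simp only [h2]
  ring

/-- **The system on the grid is solvable iff `A x ≥ b` is solvable.** -/
theorem feas_iff (A : Matrix (Fin m) (Fin n) ℝ) (b : Fin m → ℝ) :
    (∃ z : Fin (size m n) → ℝ, grhs ℝ m n ≤ (gmat (dat A b) m n).mulVec z) ↔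
      ∃ x : Fin n → ℝ, b ≤ A.mulVec x := by
  constructor
  · rintro ⟨z, hz⟩
    obtain ⟨h, hn, hs⟩ := back_ext (ext A b) (dat A b) (dat_odd A b) (dat_even A b) z hz
    refine ⟨fun j => h j / h n, fun i => ?_⟩
    have h1 := hs i i.2
    rw [ext_sum] at h1
    have hp : 0 < h n := by linarith
    have h2 : A.mulVec (fun j : Fin n => h j / h n) i = (∑ j : Fin n, A i j * h j) / h n := by
      unfold Matrix.mulVec dotProduct
      rw [Finset.sum_div]
      exact Finset.sum_congr rfl fun j _ => by ring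
    rw [h2, le_div_iff₀ hp]
    linarith
  · rintro ⟨x, hx⟩
    refine forth_ext (ext A b) (dat A b) (dat_odd A b) (dat_even A b)
      (fun j => if h : j < n then x ⟨j, h⟩ else 1) ?_ ?_
    · simp
    · intro i hi
      have h1 := ext_sum A b ⟨i, hi⟩ (fun j => if h : j < n then x ⟨j, h⟩ else 1)
      have h2 := hx ⟨i, hi⟩
      simp only at h1
      rw [h1]
      simp only [Fin.is_lt, dite_true, Fin.eta, lt_irrefl, dite_false, mul_one]
      unfold Matrix.mulVec dotProduct at h2
      linarith

end Pool.Agent.R533.GU
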