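import Pool.Agent.R533.GU.Ok
import Pool.Agent.R533.GU.Feas

set_option autoImplicit false

/-! The algorithm decides all instances in strongly polynomial time. -/

namespace Pool.Agent.R533.GU

open Pool.Agent.H558R2 Pool.Agent.H622R3.SM Pool.Agent.NPC

variable {m n : ℕ}

theorem alg_run (O : Set (List Bool)) (α : Alg) (A : Matrix (Fin m) (Fin n) ℝ) (b : Fin m → ℝ)
    (k : ℕ) (ans : Bool) (nums : List ℝ) (steps : ℕ)
    (hq : run O (α (size m n) (size m n)) k [] (start (gmat (dat A b) m n) (grhs ℝ m n)) =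
      some (ans, nums, steps)) :
    ∃ l : List ℝ, run O (alg α m n) (nt m n + k) [] (start A b) =
        some (ans, l ++ nums, nt m n + (l.length + steps)) ∧ l.length ≤ 4 * size m n + 2 ∧
      ∀ v ∈ l, ∃ r, v = start (gmat (dat A b) m n) (grhs ℝ m n) r := by
  obtain ⟨ρ', l, h1, h2, h3, h4⟩ := ini_ok A b
  refine ⟨l, ?_, h3, h4⟩
  have hl : (outs m n (start A b)).length = nt m n := by simp [outs]
  have e1 : run O (alg α m n) k (outs m n (start A b)) (start A b) =
      some (ans, l ++ nums, l.length + steps) := by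
    refine run_sim_start O (α (size m n) (size m n)) (alg α m n) (outs m n (start A b))
      (ini m n (outs m n (start A b))) l (fun h hne => ?_) ?_ k _ (start A b) ρ' ans nums steps
      h1 h2 hq
    · have hpos : 0 < h.length := List.length_pos_iff.mpr hne
      have e : (outs m n (start A b) ++ h).drop (nt m n) = h := by
        rw [← hl, List.drop_left]
      unfold alg
      rw [if_neg (by rw [List.length_append]; omega), if_neg (by rw [List.length_append]; omega),
        e]
      rfl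
    · unfold alg
      rw [if_neg (by omega), if_pos hl, List.drop_eq_nil_of_le (by omega)]
  have e2 := run_tests O (alg α m n) (reg n) (start A b) (nt m n) k _
    (fun h hh => by unfold alg; rw [if_pos hh]) (nt m n) le_rfl e1
  rw [Nat.sub_self] at e2
  exact e2

/-! ### Encoding lengths -/

theorem bitLength_neg (q : ℚ) : bitLength (-q) = bitLength q := by
  simp [bitLength]

theorem bitLength_zero : bitLength 0 = 2 := by
  simp [bitLength]

theorem bitLength_one : bitLength 1 = 3 := by
  simp [bitLength]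

theorem bitLength_pos (q : ℚ) : 1 ≤ bitLength q := by
  unfold bitLength; omega

theorem bit_A (A : Matrix (Fin m) (Fin n) ℚ) (b : Fin m → ℚ) (i : Fin m) (j : Fin n) :
    bitLength (A i j) ≤ inputLength A b := by
  unfold inputLength
  have h1 : bitLength (A i j) ≤ ∑ j, bitLength (A i j) :=
    Finset.single_le_sum (f := fun j => bitLength (A i j)) (fun _ _ => Nat.zero_le _)
      (Finset.mem_univ j)
  have h2 : ∑ j, bitLength (A i j) ≤ ∑ i, ∑ j, bitLength (A i j) :=
    Finset.single_le_sum (f := fun i => ∑ j, bitLength (A i j)) (fun _ _ => Nat.zero_le _)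
      (Finset.mem_univ i)
  omega

theorem bit_b (A : Matrix (Fin m) (Fin n) ℚ) (b : Fin m → ℚ) (i : Fin m) :
    bitLength (b i) ≤ inputLength A b := by
  unfold inputLength
  have h1 : bitLength (b i) ≤ ∑ i, bitLength (b i) :=
    Finset.single_le_sum (f := fun i => bitLength (b i)) (fun _ _ => Nat.zero_le _)
      (Finset.mem_univ i)
  omega

theorem m_le (A : Matrix (Fin m) (Fin n) ℚ) (b : Fin m → ℚ) : m ≤ inputLength A b := by
  unfold inputLength
  have h : m ≤ ∑ i, bitLength (b i) := by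
    calc m = ∑ _i : Fin m, 1 := by simp
      _ ≤ ∑ i, bitLength (b i) := Finset.sum_le_sum fun i _ => bitLength_pos _
  omega

theorem n_le (hm : 1 ≤ m) (A : Matrix (Fin m) (Fin n) ℚ) (b : Fin m → ℚ) :
    n ≤ inputLength A b := by
  unfold inputLength
  have h : n ≤ ∑ j, bitLength (A ⟨0, hm⟩ j) := by
    calc n = ∑ _j : Fin n, 1 := by simp
      _ ≤ ∑ j, bitLength (A ⟨0, hm⟩ j) := Finset.sum_le_sum fun i _ => bitLength_pos _
  have h2 : ∑ j, bitLength (A ⟨0, hm⟩ j) ≤ ∑ i, ∑ j, bitLength (A i j) :=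
    Finset.single_le_sum (f := fun i => ∑ j, bitLength (A i j)) (fun _ _ => Nat.zero_le _)
      (Finset.mem_univ _)
  omega

theorem bit_ext (A : Matrix (Fin m) (Fin n) ℚ) (b : Fin m → ℚ) (i j : ℕ) :
    bitLength (ext A b i j) ≤ inputLength A b + 3 := by
  unfold ext
  split_ifs
  · have := bit_A A b ⟨i, by assumption⟩ ⟨j, by assumption⟩; omega
  · rw [bitLength_neg]; have := bit_b A b ⟨i, by assumption⟩; omega
  · rw [bitLength_zero]; omega
  · rw [bitLength_zero]; omega

theorem bit_dat (A : Matrix (Fin m) (Fin n) ℚ) (b : Fin m → ℚ) (R c : ℕ) :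
    bitLength (dat A b R c) ≤ inputLength A b + 3 := by
  have h : ∀ q : ℚ, bitLength q ≤ inputLength A b + 3 →
      bitLength (max q 0) ≤ inputLength A b + 3 := by
    intro q hq
    rcases max_choice q 0 with h | h
    · rw [h]; exact hq
    · rw [h, bitLength_zero]; omega
  unfold dat
  split_ifs
  · exact h _ (bit_ext A b _ _)
  · exact h _ (by rw [bitLength_neg]; exact bit_ext A b _ _)

theorem bit_val (d : ℚ) (k N : ℕ) (hd : bitLength d ≤ N + 3) : bitLength (val d k) ≤ N + 3 := by
  unfold val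
  split_ifs
  · rw [bitLength_one]; omega
  · rw [bitLength_neg, bitLength_one]; omega
  · exact hd
  · rw [bitLength_zero]; omega

theorem bit_gmat (A : Matrix (Fin m) (Fin n) ℚ) (b : Fin m → ℚ) (i j : Fin (size m n)) :
    bitLength (gmat (dat A b) m n i j) ≤ inputLength A b + 3 :=
  bit_val _ _ _ (bit_dat A b _ _)

theorem bit_grhs (A : Matrix (Fin m) (Fin n) ℚ) (b : Fin m → ℚ) (i : Fin (size m n)) :
    bitLength (grhs ℚ m n i) ≤ inputLength A b + 3 := by
  unfold grhs
  split_ifs
  · rw [bitLength_one]; omega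
  · rw [bitLength_zero]; omega

theorem input_gmat (A : Matrix (Fin m) (Fin n) ℚ) (b : Fin m → ℚ) :
    inputLength (gmat (dat A b) m n) (grhs ℚ m n) ≤
      (size m n ^ 2 + size m n) * (inputLength A b + 3) := by
  have h1 : ∑ i, ∑ j, bitLength (gmat (dat A b) m n i j) ≤
      ∑ _i : Fin (size m n), ∑ _j : Fin (size m n), (inputLength A b + 3) :=
    Finset.sum_le_sum fun i _ => Finset.sum_le_sum fun j _ => bit_gmat A b i j
  have h2 : ∑ i, bitLength (grhs ℚ m n i) ≤ ∑ _i : Fin (size m n), (inputLength A b + 3) :=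
    Finset.sum_le_sum fun i _ => bit_grhs A b i
  simp only [Finset.sum_const, Finset.card_univ, Fintype.card_fin, smul_eq_mul] at h1 h2
  unfold inputLength at h1 h2 ⊢
  calc _ ≤ _ := Nat.add_le_add h1 h2
    _ = _ := by ring

/-! ### Rational instances -/

theorem cast_ext (A : Matrix (Fin m) (Fin n) ℝ) (b : Fin m → ℝ) (A' : Matrix (Fin m) (Fin n) ℚ)
    (b' : Fin m → ℚ) (hA : ∀ i j, ((A' i j : ℚ) : ℝ) = A i j) (hb : ∀ i, ((b' i : ℚ) : ℝ) = b i)
    (i j : ℕ) : ((ext A' b' i j : ℚ) : ℝ) = ext A b i j := by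
  unfold ext
  split_ifs
  · exact hA _ _
  · rw [Rat.cast_neg, hb]
  · exact Rat.cast_zero
  · exact Rat.cast_zero

theorem cast_dat (A : Matrix (Fin m) (Fin n) ℝ) (b : Fin m → ℝ) (A' : Matrix (Fin m) (Fin n) ℚ)
    (b' : Fin m → ℚ) (hA : ∀ i j, ((A' i j : ℚ) : ℝ) = A i j) (hb : ∀ i, ((b' i : ℚ) : ℝ) = b i)
    (R c : ℕ) : ((dat A' b' R c : ℚ) : ℝ) = dat A b R c := by
  unfold dat
  split_ifs
  · rw [Rat.cast_max, cast_ext A b A' b' hA hb, Rat.cast_zero]
  · rw [Rat.cast_max, Rat.cast_neg, cast_ext A b A' b' hA hb, Rat.cast_zero]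

theorem cast_gmat (A : Matrix (Fin m) (Fin n) ℝ) (b : Fin m → ℝ) (A' : Matrix (Fin m) (Fin n) ℚ)
    (b' : Fin m → ℚ) (hA : ∀ i j, ((A' i j : ℚ) : ℝ) = A i j) (hb : ∀ i, ((b' i : ℚ) : ℝ) = b i)
    (i j : Fin (size m n)) :
    ((gmat (dat A' b') m n i j : ℚ) : ℝ) = gmat (dat A b) m n i j := by
  have h := cast_dat A b A' b' hA hb ((posC n i).2 / 6) ((posC n i).1 / 6)
  unfold gmat val
  split_ifs
  · exact Rat.cast_one
  · rw [Rat.cast_neg, Rat.cast_one]
  · exact h
  · exact Rat.cast_zero

theorem cast_grhs (i : Fin (size m n)) : ((grhs ℚ m n i : ℚ) : ℝ) = grhs ℝ m n i := by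
  unfold grhs
  split_ifs
  · exact Rat.cast_one
  · exact Rat.cast_zero

/-! ### The polynomial -/

/-- A bound for the size. -/
noncomputable def szP : Polynomial ℕ := 36 * (Polynomial.X + 2) ^ 2

theorem szP_eval (k : ℕ) : szP.eval k = 36 * (k + 2) ^ 2 := by
  simp [szP]

/-- The polynomial bound. -/
noncomputable def bigP (p : Polynomial ℕ) : Polynomial ℕ :=
  (Polynomial.X + 1) ^ 2 + (4 * szP + 2) + p.comp (2 * szP) + (Polynomial.X + 3) +
    p.comp ((szP ^ 2 + szP) * (Polynomial.X + 3))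

theorem bigP_eval (p : Polynomial ℕ) (k : ℕ) :
    (bigP p).eval k = (k + 1) ^ 2 + (4 * (szP.eval k) + 2) + p.eval (2 * szP.eval k) + (k + 3) +
      p.eval ((szP.eval k ^ 2 + szP.eval k) * (k + 3)) := by
  simp [bigP, Polynomial.eval_comp]

theorem size_le (k : ℕ) (hm : m + 2 ≤ k + 2) (hn : n + 2 ≤ k + 2) : size m n ≤ szP.eval k := by
  rw [szP_eval]
  unfold size wid
  calc 6 * (m + 2) * (6 * (n + 2)) = 36 * ((m + 2) * (n + 2)) := by ring
    _ ≤ 36 * ((k + 2) * (k + 2)) := Nat.mul_le_mul_left _ (Nat.mul_le_mul hm hn)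
    _ = _ := by ring

theorem nt_le (k : ℕ) (hm : m ≤ k) (hn : n ≤ k) : nt m n ≤ (k + 1) ^ 2 := by
  unfold nt
  calc m * (n + 1) ≤ (k + 1) * (k + 1) := Nat.mul_le_mul (by omega) (by omega)
    _ = _ := by ring

theorem decides_alg (O : Set (List Bool)) (α : Alg) (h : DecidesOn O GridSystem α) :
    DecidesOn O (fun _ _ _ _ => True) (alg α) := by
  obtain ⟨p, hp⟩ := h
  refine ⟨bigP p, fun m n hm hn A b _ => ?_⟩
  have hs1 : 1 ≤ size m n := by
    unfold size wid
    exact Nat.succ_le_of_lt (by positivity)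
  obtain ⟨ans, nums, steps, h1, h2, h3, h4⟩ := hp (size m n) (size m n) hs1 hs1 _ _
    (grid_system (dat A b) (dat_nonneg A b))
  obtain ⟨l, h5, h6, h7⟩ := alg_run O α A b _ ans nums steps h1
  have hsz : size m n ≤ szP.eval (m + n) := size_le _ (by omega) (by omega)
  have hnt : nt m n ≤ (m + n + 1) ^ 2 := nt_le _ (by omega) (by omega)
  have hpe : p.eval (size m n + size m n) ≤ p.eval (2 * szP.eval (m + n)) :=
    eval_mono p (by omega)
  refine ⟨ans, l ++ nums, _, run_mono O (alg α m n) _ _ _ _ _ ?_ h5, ?_, ?_, ?_⟩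
  · rw [bigP_eval]; omega
  · rw [h2, feas_iff]
  · rw [bigP_eval]; omega
  · intro A' b' hA hb v hv
    have hG := cast_gmat A b A' b' hA hb
    have hg : ∀ i, ((grhs ℚ m n i : ℚ) : ℝ) = grhs ℝ m n i := cast_grhs
    have hm' := m_le A' b'
    have hn' := n_le hm A' b'
    rw [bigP_eval]
    rcases List.mem_append.mp hv with hv | hv
    · obtain ⟨r, rfl⟩ := h7 v hv
      rcases start_cases (gmat (dat A b) m n) (grhs ℝ m n) r with e | e | ⟨i, j, -, e⟩ | ⟨i, -, e⟩
      · refine ⟨0, by rw [e, Rat.cast_zero], ?_⟩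
        rw [bitLength_zero]; omega
      · refine ⟨1, by rw [e, Rat.cast_one], ?_⟩
        rw [bitLength_one]; omega
      · refine ⟨gmat (dat A' b') m n i j, by rw [e, hG], ?_⟩
        have := bit_gmat A' b' i j
        omega
      · refine ⟨grhs ℚ m n i, by rw [e, hg], ?_⟩
        have := bit_grhs A' b' i
        omega
    · obtain ⟨q, e, hq⟩ := h4 (gmat (dat A' b') m n) (grhs ℚ m n) hG hg v hv
      refine ⟨q, e, hq.trans ?_⟩
      have h8 := input_gmat A' b'
      have h9 : size m n ≤ szP.eval (inputLength A' b') := size_le _ (by omega) (by omega)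
      have h10 : (size m n ^ 2 + size m n) * (inputLength A' b' + 3) ≤
          (szP.eval (inputLength A' b') ^ 2 + szP.eval (inputLength A' b')) *
            (inputLength A' b' + 3) :=
        Nat.mul_le_mul_right _ (Nat.add_le_add (Nat.pow_le_pow_left h9 2) h9)
      have h11 := eval_mono p (h8.trans h10)
      omega

theorem oracleFree_alg (α : Alg) (h : OracleFree α) : OracleFree (alg α) := by
  intro m n k w
  unfold alg
  split_ifs
  · simp
  · have h1 := h (size m n) (size m n) (k.drop (nt m n))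
    simp only
    cases e : (α (size m n) (size m n) (k.drop (nt m n))).2 with
    | sign r => simp [renT]
    | answer a => simp [renT]
    | ask w' => exact absurd e (h1 w')
  · have h1 := h (size m n) (size m n) (k.drop (nt m n))
    simp only
    cases e : (α (size m n) (size m n) (k.drop (nt m n))).2 with
    | sign r => simp [renT]
    | answer a => simp [renT]
    | ask w' => exact absurd e (h1 w')

end Pool.Agent.R533.GU
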