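import Pool.Agent.R533.GU.Alg

set_option autoImplicit false

/-! The initial program writes the system on the grid. -/

namespace Pool.Agent.R533.GU

open Pool.Agent.H558R2 Pool.Agent.H622R3.SM

variable {m n : ℕ}

theorem tab_U3' : ∀ k < 250, (tab k).2.2.1 = 3 → k = 55 := by
  set_option maxRecDepth 20000 in decide

theorem tab_U3 (k : ℕ) (h : (tab k).2.2.1 = 3) : k = 55 := by
  rcases Nat.lt_or_ge k 250 with h1 | h1
  · exact tab_U3' k h1 h
  · rw [tab_big k h1] at h; simp at h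

theorem kin_eq (m n x y : ℕ) :
    kin m n x y = tab (36 * typ m n (y / 6) (x / 6) + 6 * (y % 6) + x % 6) := rfl

theorem kin_U3 (x y : ℕ) (h : (kin m n x y).2.2.1 = 3) :
    1 ≤ y / 6 ∧ y / 6 ≤ m ∧ 1 ≤ x / 6 ∧ x / 6 ≤ 2 * n + 2 := by
  rw [kin_eq] at h
  have h1 := tab_U3 _ h
  have h2 := typ_le m n (y / 6) (x / 6)
  exact of_typ_one (by omega)

theorem tabL0 : ∀ ly < 6, (tab (36 * 0 + 6 * ly + 0)).1 = 0 ∧
    (tab (36 * 4 + 6 * ly + 0)).1 = 0 := by decide

theorem tabR5 : ∀ ly < 6, (tab (36 * 0 + 6 * ly + 5)).2.1 = 0 ∧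
    (tab (36 * 5 + 6 * ly + 5)).2.1 = 0 := by decide

theorem tabU0 : ∀ lx < 6, (tab (36 * 0 + 6 * 0 + lx)).2.2.1 = 0 ∧
    (tab (36 * 2 + 6 * 0 + lx)).2.2.1 = 0 ∧ (tab (36 * 3 + 6 * 0 + lx)).2.2.1 = 0 ∧
    (tab (36 * 6 + 6 * 0 + lx)).2.2.1 = 0 := by decide

theorem tabD5 : ∀ lx < 6, (tab (36 * 0 + 6 * 5 + lx)).2.2.2 = 0 := by decide

theorem nbL (x y : ℕ) (h : (kin m n x y).1 ≠ 0) : 1 ≤ x := by
  by_contra hx
  obtain rfl : x = 0 := by omega
  apply h
  rw [kin_eq]
  have h1 := tabL0 (y % 6) (by omega)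
  have ht : typ m n (y / 6) (0 / 6) = 0 ∨ typ m n (y / 6) (0 / 6) = 4 := by
    unfold typ
    split_ifs <;> omega
  rcases ht with ht | ht
  · rw [ht]; exact h1.1
  · rw [ht]; exact h1.2

theorem nbR (x y : ℕ) (hx : x < 2 * wid n) (h : (kin m n x y).2.1 ≠ 0) : x + 1 < 2 * wid n := by
  by_contra hx'
  have hw : wid n = 6 * (n + 2) := rfl
  apply h
  rw [kin_eq, show x % 6 = 5 by omega, show x / 6 = 2 * n + 3 by omega]
  have h1 := tabR5 (y % 6) (by omega)
  have ht : typ m n (y / 6) (2 * n + 3) = 0 ∨ typ m n (y / 6) (2 * n + 3) = 5 := by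
    by_cases hR : 1 ≤ y / 6 ∧ y / 6 ≤ m
    · exact Or.inr (typ_five hR.1 hR.2)
    · left
      unfold typ
      rw [if_neg hR, if_neg (by omega)]
  rcases ht with ht | ht
  · rw [ht]; exact h1.1
  · rw [ht]; exact h1.2

theorem nbU (x y : ℕ) (h : (kin m n x y).2.2.1 ≠ 0) : 1 ≤ y := by
  by_contra hy
  obtain rfl : y = 0 := by omega
  apply h
  rw [kin_eq]
  have h1 := tabU0 (x % 6) (by omega)
  have ht : typ m n (0 / 6) (x / 6) = 0 ∨ typ m n (0 / 6) (x / 6) = 2 ∨
      typ m n (0 / 6) (x / 6) = 3 ∨ typ m n (0 / 6) (x / 6) = 6 := by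
    unfold typ
    split_ifs <;> omega
  rcases ht with ht | ht | ht | ht
  · rw [ht]; exact h1.1
  · rw [ht]; exact h1.2.1
  · rw [ht]; exact h1.2.2.1
  · rw [ht]; exact h1.2.2.2

theorem nbD (x y : ℕ) (hy : y < 6 * (m + 2)) (h : (kin m n x y).2.2.2 ≠ 0) :
    y + 1 < 6 * (m + 2) := by
  by_contra hy'
  apply h
  rw [kin_eq, show y % 6 = 5 by omega, show y / 6 = m + 1 by omega]
  have ht : typ m n (m + 1) (x / 6) = 0 := by
    unfold typ
    rw [if_neg (by omega), if_neg (by omega)]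
  rw [ht]
  exact tabD5 (x % 6) (by omega)

/-- The entry of the matrix at a neighbour. -/
theorem start_nb (D : ℕ → ℕ → ℝ) (g : Fin (size m n) → ℝ) (i u v k : ℕ) (hi : i < size m n)
    (hu : u < 2 * wid n) (hv : v < 6 * (m + 2)) (hp : (u + v) % 2 = 1)
    (hs : sel m n (posC n i).1 (posC n i).2 u v = k) :
    start (gmat D m n) g [0, i, v * wid n + u / 2] =
      val (D ((posC n i).2 / 6) ((posC n i).1 / 6)) k := by
  rw [start_A _ _ _ _ hi (idx_lt hv hu)]
  have e : gmat D m n ⟨i, hi⟩ ⟨v * wid n + u / 2, idx_lt hv hu⟩ =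
    val (D ((posC n i).2 / 6) ((posC n i).1 / 6)) (sel m n (posC n i).1 (posC n i).2
      (posV n (v * wid n + u / 2)).1 (posV n (v * wid n + u / 2)).2) := rfl
  rw [e, posV_of n u v hp hu, hs]

/-- The neighbours in the four directions. -/
theorem start_four (D : ℕ → ℕ → ℝ) (g : Fin (size m n) → ℝ) (i : ℕ) (hi : i < size m n) :
    ((kin m n (posC n i).1 (posC n i).2).1 ≠ 0 →
      start (gmat D m n) g [0, i, (posC n i).2 * wid n + ((posC n i).1 - 1) / 2] =
      val (D ((posC n i).2 / 6) ((posC n i).1 / 6)) (kin m n (posC n i).1 (posC n i).2).1) ∧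
    ((kin m n (posC n i).1 (posC n i).2).2.1 ≠ 0 →
      start (gmat D m n) g [0, i, (posC n i).2 * wid n + ((posC n i).1 + 1) / 2] =
      val (D ((posC n i).2 / 6) ((posC n i).1 / 6)) (kin m n (posC n i).1 (posC n i).2).2.1) ∧
    ((kin m n (posC n i).1 (posC n i).2).2.2.1 ≠ 0 →
      start (gmat D m n) g [0, i, ((posC n i).2 - 1) * wid n + (posC n i).1 / 2] =
      val (D ((posC n i).2 / 6) ((posC n i).1 / 6)) (kin m n (posC n i).1 (posC n i).2).2.2.1) ∧
    ((kin m n (posC n i).1 (posC n i).2).2.2.2 ≠ 0 →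
      start (gmat D m n) g [0, i, ((posC n i).2 + 1) * wid n + (posC n i).1 / 2] =
      val (D ((posC n i).2 / 6) ((posC n i).1 / 6))
        (kin m n (posC n i).1 (posC n i).2).2.2.2) := by
  have hx := posC_lt n i
  have hy : (posC n i).2 < 6 * (m + 2) := pos_lt hi
  have hp := posC_even n i
  refine ⟨fun h => ?_, fun h => ?_, fun h => ?_, fun h => ?_⟩
  · have h1 := nbL _ _ h
    refine start_nb D g i _ _ _ hi (by omega) hy (by omega) ?_
    unfold sel
    rw [if_pos ⟨rfl, by omega⟩]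
  · have h1 := nbR _ _ hx h
    refine start_nb D g i _ _ _ hi h1 hy (by omega) ?_
    unfold sel
    rw [if_neg (by omega), if_pos ⟨rfl, rfl⟩]
  · have h1 := nbU _ _ h
    refine start_nb D g i _ _ _ hi hx (by omega) (by omega) ?_
    unfold sel
    rw [if_neg (by omega), if_neg (by omega), if_pos ⟨rfl, by omega⟩]
  · have h1 := nbD _ _ hy h
    refine start_nb D g i _ _ _ hi hx h1 (by omega) ?_
    unfold sel
    rw [if_neg (by omega), if_neg (by omega), if_neg (by omega), if_pos ⟨rfl, rfl⟩]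

/-- All instructions of a row are good. -/
theorem row_good (A : Matrix (Fin m) (Fin n) ℝ) (b : Fin m → ℝ) (g : Fin (size m n) → ℝ) (i : ℕ)
    (hi : i < size m n) (I : Instr) (hI : I ∈ rowI m n (outs m n (start A b)) i) :
    ∃ r, I.dst = 5 :: r ∧ I.op ≠ Op.div ∧ (∀ s, I.fst ≠ 5 :: s) ∧ (∀ s, I.snd ≠ 5 :: s) ∧
      I.op.eval (start A b I.fst) (start A b I.snd) =
        start (gmat (dat A b) m n) g r := by
  have h4 := start_four (dat A b) g i hi
  have h3 := tab_three (36 * typ m n ((posC n i).2 / 6) ((posC n i).1 / 6) +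
    6 * ((posC n i).2 % 6) + (posC n i).1 % 6)
  rw [← kin_eq] at h3
  have zero : ∀ (k R c : ℕ) (dst : Reg), I ∈ entI n (outs m n (start A b)) k R c dst → k ≠ 0 := by
    intro k R c dst h e
    subst e
    simp [entI] at h
  unfold rowI at hI
  rw [List.mem_append, List.mem_append, List.mem_append] at hI
  rcases hI with hI | hI | hI | hI
  · have g1 := (good_ent A b _ _ _ (fun e => absurd e h3.1) _).1 I hI
    exact ⟨_, g1.1, g1.2.1, g1.2.2.1, g1.2.2.2.1,
      g1.2.2.2.2.trans (h4.1 (zero _ _ _ _ hI)).symm⟩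
  · have g1 := (good_ent A b _ _ _ (fun e => absurd e h3.2.1) _).1 I hI
    exact ⟨_, g1.1, g1.2.1, g1.2.2.1, g1.2.2.2.1,
      g1.2.2.2.2.trans (h4.2.1 (zero _ _ _ _ hI)).symm⟩
  · have g1 := (good_ent A b _ _ _ (fun e => kin_U3 _ _ e) _).1 I hI
    exact ⟨_, g1.1, g1.2.1, g1.2.2.1, g1.2.2.2.1,
      g1.2.2.2.2.trans (h4.2.2.1 (zero _ _ _ _ hI)).symm⟩
  · have g1 := (good_ent A b _ _ _ (fun e => absurd e h3.2.2) _).1 I hI
    exact ⟨_, g1.1, g1.2.1, g1.2.2.1, g1.2.2.2.1,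
      g1.2.2.2.2.trans (h4.2.2.2 (zero _ _ _ _ hI)).symm⟩

/-- All nonzero entries of a row are written. -/
theorem row_cover (A : Matrix (Fin m) (Fin n) ℝ) (b : Fin m → ℝ) (i j : Fin (size m n))
    (hI : ∀ I ∈ rowI m n (outs m n (start A b)) i, I.dst ≠ [5, 0, (i : ℕ), (j : ℕ)]) :
    gmat (dat A b) m n i j = 0 := by
  by_contra h
  have h3 := tab_three (36 * typ m n ((posC n i).2 / 6) ((posC n i).1 / 6) +
    6 * ((posC n i).2 % 6) + (posC n i).1 % 6)
  rw [← kin_eq] at h3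
  have hst : gmat (dat A b) m n i j = start (gmat (dat A b) m n) (grhs ℝ m n) [0, (i : ℕ), (j : ℕ)] := by
    rw [start_A _ _ _ _ i.2 j.2]
  have h4 := start_four (dat A b) (grhs ℝ m n) i i.2
  have hj := posV_idx n j
  have key : ∀ (k : ℕ) (e : (k = 3 → 1 ≤ (posC n i).2 / 6 ∧ (posC n i).2 / 6 ≤ m ∧
      1 ≤ (posC n i).1 / 6 ∧ (posC n i).1 / 6 ≤ 2 * n + 2)),
      (∀ I ∈ entI n (outs m n (start A b)) k ((posC n i).2 / 6) ((posC n i).1 / 6)
        [5, 0, (i : ℕ), (j : ℕ)], I ∈ rowI m n (outs m n (start A b)) i) →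
      val (dat A b ((posC n i).2 / 6) ((posC n i).1 / 6)) k = 0 := by
    intro k e hsub
    have g1 := good_ent A b k _ _ e [5, 0, (i : ℕ), (j : ℕ)]
    apply g1.2.1
    by_contra hne
    obtain ⟨I, hI'⟩ := List.exists_mem_of_ne_nil _ hne
    exact hI I (hsub I hI') (g1.1 I hI').1
  rcases ent_cases (dat A b) i j h with ⟨h1, _, h2⟩ | ⟨h1, h2⟩ | ⟨h1, _, h2⟩ | ⟨h1, h2⟩
  · rw [h1] at hj
    simp only at hj
    apply h
    rw [hst]
    have e := h4.1 h2
    rw [hj] at e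
    rw [e]
    refine key _ (fun e => absurd e h3.1) fun I hI' => ?_
    unfold rowI
    rw [hj]
    exact List.mem_append_left _ hI'
  · rw [h1] at hj
    simp only at hj
    apply h
    rw [hst]
    have e := h4.2.1 h2
    rw [hj] at e
    rw [e]
    refine key _ (fun e => absurd e h3.2.1) fun I hI' => ?_
    unfold rowI
    rw [hj]
    exact List.mem_append_right _ (List.mem_append_left _ hI')
  · rw [h1] at hj
    simp only at hj
    apply h
    rw [hst]
    have e := h4.2.2.1 h2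
    rw [hj] at e
    rw [e]
    refine key _ (fun e => kin_U3 _ _ e) fun I hI' => ?_
    unfold rowI
    rw [hj]
    exact List.mem_append_right _ (List.mem_append_right _ (List.mem_append_left _ hI'))
  · rw [h1] at hj
    simp only at hj
    apply h
    rw [hst]
    have e := h4.2.2.2 h2
    rw [hj] at e
    rw [e]
    refine key _ (fun e => absurd e h3.2.2) fun I hI' => ?_
    unfold rowI
    rw [hj]
    exact List.mem_append_right _ (List.mem_append_right _ (List.mem_append_right _ hI'))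

end Pool.Agent.R533.GU
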