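import Pool.Agent.R533.GU.Ini

set_option autoImplicit false

/-! The store after the initial program. -/

namespace Pool.Agent.R533.GU

open Pool.Agent.H558R2 Pool.Agent.H622R3.SM

variable {m n : ℕ}

theorem entI_length (h : List Outcome)
    (k R c : ℕ) (dst : Reg) : (entI n h k R c dst).length ≤ 1 := by
  unfold entI datI posI negI
  split_ifs <;> simp

theorem rowI_length (h : List Outcome) (i : ℕ) :
    (rowI m n h i).length ≤ 4 := by
  unfold rowI
  rw [List.length_append, List.length_append, List.length_append]
  have h1 := entI_length (n := n) h (kin m n (posC n i).1 (posC n i).2).1 ((posC n i).2 / 6)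
    ((posC n i).1 / 6) [5, 0, i, (posC n i).2 * wid n + ((posC n i).1 - 1) / 2]
  have h2 := entI_length (n := n) h (kin m n (posC n i).1 (posC n i).2).2.1 ((posC n i).2 / 6)
    ((posC n i).1 / 6) [5, 0, i, (posC n i).2 * wid n + ((posC n i).1 + 1) / 2]
  have h3 := entI_length (n := n) h (kin m n (posC n i).1 (posC n i).2).2.2.1 ((posC n i).2 / 6)
    ((posC n i).1 / 6) [5, 0, i, ((posC n i).2 - 1) * wid n + (posC n i).1 / 2]
  have h4 := entI_length (n := n) h (kin m n (posC n i).1 (posC n i).2).2.2.2 ((posC n i).2 / 6)
    ((posC n i).1 / 6) [5, 0, i, ((posC n i).2 + 1) * wid n + (posC n i).1 / 2]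
  omega

theorem ini_length (h : List Outcome) :
    (ini m n h).length ≤ 4 * size m n + 2 := by
  unfold ini
  rw [List.length_append, List.length_flatMap]
  have h1 : ∀ N : ℕ, ((List.range N).map fun i => (rowI m n h i).length).sum ≤ 4 * N := by
    intro N
    induction N with
    | zero => simp
    | succ N ih =>
      rw [List.range_succ, List.map_append, List.sum_append]
      have := rowI_length (m := m) (n := n) h N
      simp only [List.map_cons, List.map_nil, List.sum_cons, List.sum_nil]
      omega
  have h2 := h1 (size m n)
  simp only [List.length_cons, List.length_nil]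
  omega

theorem start_cases {M N : ℕ} (G : Matrix (Fin M) (Fin N) ℝ) (g : Fin M → ℝ) (r : Reg) :
    start G g r = 0 ∨ start G g r = 1 ∨ (∃ i j, r = [0, (i : Fin M).val, (j : Fin N).val] ∧
      start G g r = G i j) ∨ ∃ i, r = [1, (i : Fin M).val] ∧ start G g r = g i := by
  unfold start
  split
  · rename_i i j
    by_cases h : i < M ∧ j < N
    · rw [dif_pos h]
      exact Or.inr (Or.inr (Or.inl ⟨⟨i, h.1⟩, ⟨j, h.2⟩, rfl, rfl⟩))
    · rw [dif_neg h]; exact Or.inl rfl
  · rename_i i
    by_cases h : i < M
    · rw [dif_pos h]
      exact Or.inr (Or.inr (Or.inr ⟨⟨i, h⟩, rfl, rfl⟩))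
    · rw [dif_neg h]; exact Or.inl rfl
  · exact Or.inr (Or.inl rfl)
  · exact Or.inl rfl

/-- All instructions of the initial program are good. -/
theorem ini_good (A : Matrix (Fin m) (Fin n) ℝ) (b : Fin m → ℝ) (I : Instr)
    (hI : I ∈ ini m n (outs m n (start A b))) :
    ∃ r, I.dst = 5 :: r ∧ I.op ≠ Op.div ∧ (∀ s, I.fst ≠ 5 :: s) ∧ (∀ s, I.snd ≠ 5 :: s) ∧
      I.op.eval (start A b I.fst) (start A b I.snd) =
        start (gmat (dat A b) m n) (grhs ℝ m n) r := by
  unfold ini at hI
  rw [List.mem_append, List.mem_flatMap] at hI
  rcases hI with ⟨i, hi, hI⟩ | hI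
  · exact row_good A b _ i (List.mem_range.mp hi) I hI
  · rw [List.mem_cons, List.mem_singleton] at hI
    rcases hI with rfl | rfl
    · refine ⟨[1, top n], rfl, by simp, by simp, by simp, ?_⟩
      rw [start_b _ _ _ top_lt]
      simp [Op.eval, start, grhs]
    · exact ⟨[2], rfl, by simp, by simp, by simp, by simp [Op.eval, start]⟩

theorem ini_ok (A : Matrix (Fin m) (Fin n) ℝ) (b : Fin m → ℝ) :
    ∃ ρ' l, exec (ini m n (outs m n (start A b))) (start A b) = some (ρ', l) ∧
      (∀ r, ρ' (5 :: r) = start (gmat (dat A b) m n) (grhs ℝ m n) r) ∧
      l.length ≤ 4 * size m n + 2 ∧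
      ∀ v ∈ l, ∃ r, v = start (gmat (dat A b) m n) (grhs ℝ m n) r := by
  obtain ⟨ρ', h1, h2, h3⟩ := exec_init (start (gmat (dat A b) m n) (grhs ℝ m n)) (start A b)
    (ini m n (outs m n (start A b))) (start A b) (ini_good A b) (fun _ _ => rfl)
  refine ⟨ρ', _, h1, fun r => ?_, by rw [List.length_map]; exact ini_length _, ?_⟩
  · by_cases h : ∃ I ∈ ini m n (outs m n (start A b)), I.dst = 5 :: r
    · exact h2 r h
    · push Not at h
      rw [h3 r h, show start A b (5 :: r) = 0 by cases r <;> simp [start]]
      symm
      by_contra hne
      rcases start_cases (gmat (dat A b) m n) (grhs ℝ m n) r with e | e | ⟨i, j, e, e'⟩ | ⟨i, e, e'⟩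
      · exact hne e
      · -- the value is one
        rcases r with _ | ⟨a, _ | ⟨c, _ | ⟨d, _ | ⟨f, r⟩⟩⟩⟩
        · simp [start] at hne
        · by_cases ha : a = 2
          · subst ha
            exact h ⟨Op.add, [5, 2], [2], []⟩ (by unfold ini; simp) rfl
          · apply hne
            unfold start
            split <;> simp_all
        · by_cases ha : a = 1
          · subst ha
            by_cases hc : c < size m n
            · rw [start_b _ _ _ hc] at hne
              unfold grhs at hne
              by_cases ht : c = top n
              · subst ht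
                exact h ⟨Op.add, [5, 1, top n], [2], []⟩ (by unfold ini; simp) rfl
              · exact hne (if_neg ht)
            · apply hne
              simp [start, hc]
          · apply hne
            unfold start
            split <;> simp_all
        · by_cases ha : a = 0
          · subst ha
            by_cases hc : c < size m n ∧ d < size m n
            · rw [start_A _ _ _ _ hc.1 hc.2] at hne
              apply hne
              refine row_cover A b ⟨c, hc.1⟩ ⟨d, hc.2⟩ fun I hI => ?_
              exact h I (by
                unfold ini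
                exact List.mem_append_left _ (List.mem_flatMap.mpr
                  ⟨c, List.mem_range.mpr hc.1, hI⟩))
            · apply hne
              simp [start, hc]
          · apply hne
            unfold start
            split <;> simp_all
        · apply hne
          unfold start
          split <;> simp_all
      · rw [e'] at hne
        apply hne
        subst e
        refine row_cover A b i j fun I hI => ?_
        exact h I (by
          unfold ini
          exact List.mem_append_left _ (List.mem_flatMap.mpr
            ⟨i, List.mem_range.mpr i.2, hI⟩))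
      · rw [e'] at hne
        subst e
        unfold grhs at hne
        by_cases ht : (i : ℕ) = top n
        · refine h ⟨Op.add, [5, 1, top n], [2], []⟩ (by unfold ini; simp) ?_
          rw [ht]
        · exact hne (if_neg ht)
  · intro v hv
    obtain ⟨I, hI, rfl⟩ := List.mem_map.mp hv
    obtain ⟨r, -, -, -, -, h⟩ := ini_good A b I hI
    exact ⟨r, h⟩

end Pool.Agent.R533.GU
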