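import Pool.Agent.R533.GU.Dec
import Pool.Agent.H622R3.SM.T_PM
import Pool.Agent.H622R3.SM.T_COMP

set_option autoImplicit false

/-! The algorithm is controlled in polynomial time. -/

namespace Pool.Agent.R533.GU

open Pool.Agent.NPC Pool.Agent.NPC.ER Pool.Agent.NPC.H612 Pool.Agent.H558R2 Pool.Agent.H622R3.SM

variable {α β : Type} [TEnc α] [TEnc β]

omit [TEnc β] in
theorem drop_eq (N : ℕ) : ∀ (l : List β) (k : ℕ),
    ((l.zipIdx k).filter (fun p => decide (N ≤ p.2))).map Prod.fst = l.drop (N - k) := by
  intro l
  induction l with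
  | nil => intro k; simp
  | cons a l ih =>
    intro k
    rw [List.zipIdx_cons, List.filter_cons]
    by_cases h : N ≤ k
    · rw [if_pos (by simpa using h), List.map_cons, ih, show N - (k + 1) = 0 by omega,
        show N - k = 0 by omega]
      rfl
    · rw [if_neg (by simpa using h), ih, show N - k = (N - (k + 1)) + 1 by omega]
      rfl

theorem pDrop {l : α → List β} {N : α → ℕ} (hl : Poly l) (hN : Poly N) :
    Poly (fun a => (l a).drop (N a)) := by
  have h1 : Poly (fun a => ((l a).zipIdx.filter (fun p => decide (N a ≤ p.2))).map Prod.fst) :=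
    Pool.Agent.NPC.Poly.map (F := fun _ (p : β × ℕ) => p.1)
      (Pool.Agent.NPC.Poly.filter (p := fun a (p : β × ℕ) => decide (N a ≤ p.2))
        (Pool.Agent.NPC.Poly.zipIdx hl) (by fun_prop))
      (by fun_prop)
  exact h1.congr fun a => by rw [drop_eq, Nat.sub_zero]

/-! ### Instructions and tests -/

theorem pRenI {f : α → Instr} (hf : Poly f) : Poly (fun a => renI (f a)) := by
  have h1 : Poly (fun a => (f a).code) := hf
  have h2 : ∀ c : α → ℕ × Reg × Reg × Reg, Poly c →
      Poly (fun a => ((c a).1, 5 :: (c a).2.1, 5 :: (c a).2.2.1, 5 :: (c a).2.2.2)) := by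
    intro c hc
    fun_prop
  exact h2 _ h1

theorem pRenT {f : α → Test} (hf : Poly f) : Poly (fun a => renT (f a)) := by
  have h1 : Poly (fun a => (f a).code) := hf
  have h2 : Poly (fun a => (renT (f a)).code) := by
    refine (Poly.sumElim (g := fun _ (r : Reg) => (Sum.inl (5 :: r) : Reg ⊕ (List Bool ⊕ Bool)))
      (h := fun _ s => Sum.inr s) h1 (by fun_prop) (by fun_prop)).congr fun a => ?_
    cases f a <;> rfl
  exact h2

theorem pSign {f : α → Reg} (hf : Poly f) : Poly (fun a => Test.sign (f a)) :=
  Poly.of_toT (Poly.toT' (Poly.inl (γ := List Bool ⊕ Bool) hf))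

/-! ### The initial program -/

section ini

variable {m n R c x y t k i : α → ℕ} {h : α → List Outcome} {dst : α → Reg}

theorem pWid (hn : Poly n) : Poly (fun a => wid (n a)) := by
  unfold wid
  fun_prop

attribute [local fun_prop] pWid

theorem pTyp (hm : Poly m) (hn : Poly n) (hR : Poly R) (hc : Poly c) :
    Poly (fun a => typ (m a) (n a) (R a) (c a)) := by
  unfold typ
  fun_prop

theorem pTab (hk : Poly k) : Poly (fun a => tab (k a)) := by
  unfold tab
  fun_prop

theorem pKin (hm : Poly m) (hn : Poly n) (hx : Poly x) (hy : Poly y) :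
    Poly (fun a => kin (m a) (n a) (x a) (y a)) := by
  have h1 : Poly (fun a => typ (m a) (n a) (y a / 6) (x a / 6)) :=
    pTyp hm hn (by fun_prop) (by fun_prop)
  exact pTab (by fun_prop)

theorem pPosC (hn : Poly n) (hi : Poly i) : Poly (fun a => posC (n a) (i a)) := by
  unfold posC
  fun_prop

theorem pReg (hn : Poly n) (ht : Poly t) : Poly (fun a => reg (n a) (t a)) := by
  unfold reg
  fun_prop

theorem pPosI (hn : Poly n) (hh : Poly h) (ht : Poly t) (hd : Poly dst) :
    Poly (fun a => posI (n a) (h a) (t a) (dst a)) := by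
  have h1 := pReg hn ht
  have h2 := TPM.pInstr Op.add hd h1 (Pool.Agent.NPC.Poly.const [])
  unfold posI
  fun_prop

theorem pNegI (hn : Poly n) (hh : Poly h) (ht : Poly t) (hd : Poly dst) :
    Poly (fun a => negI (n a) (h a) (t a) (dst a)) := by
  have h1 := pReg hn ht
  have h2 := TPM.pInstr Op.sub hd (Pool.Agent.NPC.Poly.const []) h1
  unfold negI
  fun_prop

theorem pDatI (hn : Poly n) (hh : Poly h) (hR : Poly R) (hc : Poly c) (hd : Poly dst) :
    Poly (fun a => datI (n a) (h a) (R a) (c a) (dst a)) := by
  have h1 : Poly (fun a => posI (n a) (h a) ((R a - 1) * (n a + 1) + (c a - 1) / 2) (dst a)) :=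
    pPosI hn hh (by fun_prop) hd
  have h2 : Poly (fun a => negI (n a) (h a) ((R a - 1) * (n a + 1) + (c a - 1) / 2) (dst a)) :=
    pNegI hn hh (by fun_prop) hd
  unfold datI
  fun_prop

theorem pEntI (hn : Poly n) (hh : Poly h) (hk : Poly k) (hR : Poly R) (hc : Poly c)
    (hd : Poly dst) : Poly (fun a => entI (n a) (h a) (k a) (R a) (c a) (dst a)) := by
  have h1 := pDatI hn hh hR hc hd
  have h2 := TPM.pInstr Op.add hd (Pool.Agent.NPC.Poly.const [2]) (Pool.Agent.NPC.Poly.const [])
  have h3 := TPM.pInstr Op.sub hd (Pool.Agent.NPC.Poly.const []) (Pool.Agent.NPC.Poly.const [2])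
  unfold entI
  fun_prop

theorem pRowI (hm : Poly m) (hn : Poly n) (hh : Poly h) (hi : Poly i) :
    Poly (fun a => rowI (m a) (n a) (h a) (i a)) := by
  have h1 := pPosC hn hi
  have h2 : Poly (fun a => kin (m a) (n a) (posC (n a) (i a)).1 (posC (n a) (i a)).2) :=
    pKin hm hn (by fun_prop) (by fun_prop)
  unfold rowI
  refine Poly.append (pEntI hn hh (by fun_prop) (by fun_prop) (by fun_prop) (by fun_prop))
    (Poly.append (pEntI hn hh (by fun_prop) (by fun_prop) (by fun_prop) (by fun_prop))
    (Poly.append (pEntI hn hh (by fun_prop) (by fun_prop) (by fun_prop) (by fun_prop))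
    (pEntI hn hh (by fun_prop) (by fun_prop) (by fun_prop) (by fun_prop))))

end ini

section main

variable {U V : α → List Unit} {h : α → List Outcome}

theorem uSize (hU : Poly U) (hV : Poly V) :
    UPoly (fun a => size (U a).length (V a).length) := by
  unfold size wid
  exact ((UPoly.const 6).mul ((UPoly.length hU).add (UPoly.const 2))).mul
    ((UPoly.const 6).mul ((UPoly.length hV).add (UPoly.const 2)))

theorem pNt (hU : Poly U) (hV : Poly V) : Poly (fun a => nt (U a).length (V a).length) := by
  unfold nt
  fun_prop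

theorem pIni (hU : Poly U) (hV : Poly V) (hh : Poly h) :
    Poly (fun a => ini (U a).length (V a).length (h a)) := by
  have h1 : Poly (fun a => top (V a).length) := by
    unfold top wid
    fun_prop
  have h2 := TPM.pInstr (α := α) Op.add (f := fun a => [5, 1, top (V a).length])
    (g := fun _ => [2]) (k := fun _ => []) (by fun_prop) (by fun_prop) (by fun_prop)
  have h3 := TPM.pInstr (α := α) Op.add (f := fun _ => [5, 2])
    (g := fun _ => [2]) (k := fun _ => []) (by fun_prop) (by fun_prop) (by fun_prop)
  unfold ini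
  refine Poly.append (Poly.flatMap (F := fun a i => rowI (U a).length (V a).length (h a) i)
    (uSize hU hV).range (pRowI (by fun_prop) (by fun_prop) (by fun_prop) (by fun_prop))) ?_
  fun_prop

end main

theorem polyControl_alg (β : Alg) (hβ : PolyControl β) : PolyControl (alg β) := by
  have h1 : Poly (fun p : HistIn => β p.1.1.length p.1.2.length p.2) := t_COMP2 _ _ _ hβ
  have hs : Poly (fun p : HistIn => List.replicate (size p.1.1.length p.1.2.length) ()) :=
    uSize (U := fun p : HistIn => p.1.1) (V := fun p => p.1.2) (by fun_prop) (by fun_prop)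
  have hn : Poly (fun p : HistIn => nt p.1.1.length p.1.2.length) :=
    pNt (U := fun p : HistIn => p.1.1) (V := fun p => p.1.2) (by fun_prop) (by fun_prop)
  have hi : Poly (fun p : HistIn => ini p.1.1.length p.1.2.length p.2) :=
    pIni (U := fun p : HistIn => p.1.1) (V := fun p => p.1.2) (h := fun p => p.2)
      (by fun_prop) (by fun_prop) (by fun_prop)
  have hd : Poly (fun p : HistIn => p.2.drop (nt p.1.1.length p.1.2.length)) :=
    pDrop (by fun_prop) hn
  have h2 : Poly (fun p : HistIn => β (size p.1.1.length p.1.2.length)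
      (size p.1.1.length p.1.2.length) (p.2.drop (nt p.1.1.length p.1.2.length))) :=
    (h1.comp (Poly.pair (Poly.pair hs hs) hd)).congr fun p => by
      simp only [List.length_replicate]
  have h3 : Poly (fun p : HistIn => (β (size p.1.1.length p.1.2.length)
      (size p.1.1.length p.1.2.length) (p.2.drop (nt p.1.1.length p.1.2.length))).1.map renI) :=
    Pool.Agent.NPC.Poly.map (F := fun _ I => renI I) (Pool.Agent.NPC.Poly.fst h2)
      (pRenI (Pool.Agent.NPC.Poly.snd Pool.Agent.NPC.Poly.id))
  have h4 : Poly (fun p : HistIn => renT (β (size p.1.1.length p.1.2.length)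
      (size p.1.1.length p.1.2.length) (p.2.drop (nt p.1.1.length p.1.2.length))).2) :=
    pRenT (Pool.Agent.NPC.Poly.snd h2)
  have h5 : Poly (fun p : HistIn => Test.sign (reg p.1.2.length p.2.length)) :=
    pSign (pReg (by fun_prop) (by fun_prop))
  have h6 : Poly (fun p : HistIn => alg β p.1.1.length p.1.2.length p.2) := by
    unfold alg
    fun_prop
  exact t_COMP _ _ _ h6

end Pool.Agent.R533.GU
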