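import Pool.Agent.R533.GU.Trans

set_option autoImplicit false

/-! Evaluation of the rows of the system on the grid. -/

namespace Pool.Agent.R533.GU

theorem wid_pos (n : ℕ) : 0 < wid n := by unfold wid; omega

theorem posV_odd (n j : ℕ) : ((posV n j).1 + (posV n j).2) % 2 = 1 := by
  unfold posV; simp only; omega

theorem posC_even (n i : ℕ) : ((posC n i).1 + (posC n i).2) % 2 = 0 := by
  unfold posC; simp only; omega

theorem posV_lt (n j : ℕ) : (posV n j).1 < 2 * wid n := by
  have := Nat.mod_lt j (wid_pos n)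
  unfold posV; simp only; omega

theorem posC_lt (n i : ℕ) : (posC n i).1 < 2 * wid n := by
  have := Nat.mod_lt i (wid_pos n)
  unfold posC; simp only; omega

theorem posV_idx (n j : ℕ) : (posV n j).2 * wid n + (posV n j).1 / 2 = j := by
  have h := Nat.div_add_mod j (wid n)
  have h2 : (2 * (j % wid n) + (j / wid n + 1) % 2) / 2 = j % wid n := by omega
  unfold posV
  simp only [h2]
  rw [mul_comm]
  exact h

theorem posC_idx (n i : ℕ) : (posC n i).2 * wid n + (posC n i).1 / 2 = i := by
  have h := Nat.div_add_mod i (wid n)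
  have h2 : (2 * (i % wid n) + i / wid n % 2) / 2 = i % wid n := by omega
  unfold posC
  simp only [h2]
  rw [mul_comm]
  exact h

theorem posV_of (n u v : ℕ) (h : (u + v) % 2 = 1) (hu : u < 2 * wid n) :
    posV n (v * wid n + u / 2) = (u, v) := by
  have h1 : (v * wid n + u / 2) / wid n = v := by
    rw [mul_comm, Nat.mul_add_div (wid_pos n), Nat.div_eq_of_lt (by omega)]
    rfl
  have h2 : (v * wid n + u / 2) % wid n = u / 2 := by
    rw [mul_comm, Nat.mul_add_mod, Nat.mod_eq_of_lt (by omega)]
  unfold posV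
  rw [h1, h2]
  ext <;> simp only <;> omega

theorem posC_of (n u v : ℕ) (h : (u + v) % 2 = 0) (hu : u < 2 * wid n) :
    posC n (v * wid n + u / 2) = (u, v) := by
  have h1 : (v * wid n + u / 2) / wid n = v := by
    rw [mul_comm, Nat.mul_add_div (wid_pos n), Nat.div_eq_of_lt (by omega)]
    rfl
  have h2 : (v * wid n + u / 2) % wid n = u / 2 := by
    rw [mul_comm, Nat.mul_add_mod, Nat.mod_eq_of_lt (by omega)]
  unfold posC
  rw [h1, h2]
  ext <;> simp only <;> omega

theorem pos_lt {m n i : ℕ} (h : i < size m n) : i / wid n < 6 * (m + 2) := by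
  rw [Nat.div_lt_iff_lt_mul (wid_pos n)]
  exact h

theorem idx_lt {m n u v : ℕ} (hv : v < 6 * (m + 2)) (hu : u < 2 * wid n) :
    v * wid n + u / 2 < size m n := by
  have h1 : (v + 1) * wid n ≤ 6 * (m + 2) * wid n := Nat.mul_le_mul_right _ hv
  unfold size
  have h2 : u / 2 < wid n := by omega
  have h3 : (v + 1) * wid n = v * wid n + wid n := by ring
  omega

/-- The value of the unknown at `(u, v)`, and `0` if there is none. -/
noncomputable def fz {m n : ℕ} (z : Fin (size m n) → ℝ) (u v : ℕ) : ℝ :=
  if h : v * wid n + u / 2 < size m n ∧ u < 2 * wid n ∧ (u + v) % 2 = 1 then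
    z ⟨v * wid n + u / 2, h.1⟩ else 0

theorem sum_at {m n : ℕ} (z : Fin (size m n) → ℝ) (c : ℝ) (u v : ℕ) :
    ∑ j : Fin (size m n), (if posV n j = (u, v) then c * z j else 0) = c * fz z u v := by
  unfold fz
  split_ifs with h
  · rw [Finset.sum_eq_single ⟨v * wid n + u / 2, h.1⟩]
    · rw [if_pos (posV_of n u v h.2.2 h.2.1)]
    · intro j _ hj
      rw [if_neg]
      intro e
      apply hj
      have h1 := posV_idx n j
      rw [e] at h1
      exact Fin.ext h1.symm
    · intro h1
      exact absurd (Finset.mem_univ _) h1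
  · rw [mul_zero]
    refine Finset.sum_eq_zero fun j _ => if_neg fun e => h ?_
    have h1 := posV_idx n j
    have h2 := posV_odd n j
    have h3 := posV_lt n j
    rw [e] at h1 h2 h3
    simp only at h1 h2 h3
    exact ⟨by rw [h1]; exact j.2, h3, h2⟩

theorem val_zero {K : Type*} [Field K] (d : K) : val d 0 = 0 := by simp [val]

/-- The rows of the system. -/
theorem row_eq (D : ℕ → ℕ → ℝ) (m n : ℕ) (z : Fin (size m n) → ℝ) (i : Fin (size m n)) :
    (gmat D m n).mulVec z i =
      val (D ((posC n i).2 / 6) ((posC n i).1 / 6)) (kin m n (posC n i).1 (posC n i).2).1 *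
        fz z ((posC n i).1 - 1) (posC n i).2 +
      val (D ((posC n i).2 / 6) ((posC n i).1 / 6)) (kin m n (posC n i).1 (posC n i).2).2.1 *
        fz z ((posC n i).1 + 1) (posC n i).2 +
      val (D ((posC n i).2 / 6) ((posC n i).1 / 6)) (kin m n (posC n i).1 (posC n i).2).2.2.1 *
        fz z (posC n i).1 ((posC n i).2 - 1) +
      val (D ((posC n i).2 / 6) ((posC n i).1 / 6)) (kin m n (posC n i).1 (posC n i).2).2.2.2 *
        fz z (posC n i).1 ((posC n i).2 + 1) := by
  rw [← sum_at, ← sum_at, ← sum_at, ← sum_at, ← Finset.sum_add_distrib,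
    ← Finset.sum_add_distrib, ← Finset.sum_add_distrib]
  unfold Matrix.mulVec dotProduct
  refine Finset.sum_congr rfl fun j _ => ?_
  have h1 := posC_even n i
  have h2 := posV_odd n j
  dsimp only [gmat]
  generalize posC n i = p at *
  obtain ⟨x, y⟩ := p
  generalize posV n j = q at *
  obtain ⟨u, v⟩ := q
  simp only [Prod.mk.injEq] at *
  unfold sel
  by_cases c1 : v = y ∧ u + 1 = x
  · rw [if_pos c1, if_pos (by omega), if_neg (by omega), if_neg (by omega), if_neg (by omega)]
    ring
  rw [if_neg c1]
  by_cases c2 : v = y ∧ u = x + 1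
  · rw [if_pos c2, if_neg (by omega), if_pos (by omega), if_neg (by omega), if_neg (by omega)]
    ring
  rw [if_neg c2]
  by_cases c3 : u = x ∧ v + 1 = y
  · rw [if_pos c3, if_neg (by omega), if_neg (by omega), if_pos (by omega), if_neg (by omega)]
    ring
  rw [if_neg c3]
  by_cases c4 : u = x ∧ v = y + 1
  · rw [if_pos c4, if_neg (by omega), if_neg (by omega), if_neg (by omega), if_pos (by omega)]
    ring
  rw [if_neg c4, if_neg (by omega), if_neg (by omega), if_neg (by omega), if_neg (by omega),
    val_zero]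
  ring

end Pool.Agent.R533.GU
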