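import Mathlib

set_option autoImplicit false

/-!
# Linear systems on the square grid

To a system `A x ≥ b` with `m` inequalities and `n` unknowns a system of `36 (m + 2) (n + 2)`
inequalities and as many unknowns is attached. The inequalities are the points `(x, y)` of a
rectangle with `x + y` even, the unknowns are the points with `x + y` odd, and an unknown occurs in an
inequality only if the two points are neighbours. The rectangle consists of cells of six times six
points; `typ` is the type of a cell, and the table `tab` gives the coefficients of the four neighbours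
(left, right, up, down) of a point: `0`, `1`, `2`, `3` mean `0`, `1`, `-1` and the datum of the cell.
-/

namespace Pool.Agent.R533.GU

/-- The type of the cell in row `R` and column `c`. -/
def typ (m n R c : ℕ) : ℕ :=
  if 1 ≤ R ∧ R ≤ m then
    (if c = 0 then 4 else if c ≤ 2 * n + 2 then 1 else if c = 2 * n + 3 then 5 else 0)
  else if R = 0 ∧ 1 ≤ c ∧ c ≤ 2 * n + 2 then
    (if c % 2 = 0 then 3 else if c = 2 * n + 1 then 6 else 2)
  else 0

/-- The coefficients of the neighbours (left, right, up, down) of the point `(lx, ly)` of a cell of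
type `t`, as a function of `36 * t + 6 * ly + lx`. -/
def tab (k : ℕ) : ℕ × ℕ × ℕ × ℕ :=
  if k = 55 then (1, 2, 3, 0)
  else if k = 62 then (0, 1, 2, 0)
  else if k = 45 then (0, 0, 1, 2)
  else if k = 52 then (2, 1, 0, 0)
  else if k = 57 then (1, 2, 1, 0)
  else if k = 64 then (2, 0, 1, 2)
  else if k = 59 then (1, 2, 2, 0)
  else if k = 69 then (0, 1, 0, 2)
  else if k = 38 then (2, 1, 0, 0)
  else if k = 43 then (0, 0, 1, 2)
  else if k = 105 then (0, 0, 1, 2)
  else if k = 100 then (2, 1, 0, 0)
  else if k = 249 then (0, 0, 1, 2)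
  else if k = 244 then (2, 1, 0, 0)
  else if k = 239 then (0, 0, 0, 1)
  else if k = 141 then (0, 0, 1, 2)
  else if k = 132 then (2, 2, 0, 0)
  else if k = 134 then (1, 2, 0, 0)
  else if k = 167 then (0, 2, 0, 0)
  else if k = 199 then (1, 0, 0, 0)
  else (0, 0, 0, 0)

/-- The table entry of the point `(x, y)`. -/
def kin (m n x y : ℕ) : ℕ × ℕ × ℕ × ℕ :=
  tab (36 * typ m n (y / 6) (x / 6) + 6 * (y % 6) + x % 6)

section Field

variable {K : Type*} [Field K] [LinearOrder K]

/-- The value of a table entry, if `d` is the datum of the cell. -/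
def val (d : K) (k : ℕ) : K :=
  if k = 1 then 1 else if k = 2 then -1 else if k = 3 then d else 0

/-- The matrix `(A, -b)`. -/
def ext {m n : ℕ} (A : Matrix (Fin m) (Fin n) K) (b : Fin m → K) (i j : ℕ) : K :=
  if h : i < m then (if h' : j < n then A ⟨i, h⟩ ⟨j, h'⟩ else if j = n then -b ⟨i, h⟩ else 0) else 0

/-- The datum of the cell in row `R` and column `c`. -/
def dat {m n : ℕ} (A : Matrix (Fin m) (Fin n) K) (b : Fin m → K) (R c : ℕ) : K :=
  if c % 2 = 1 then max (ext A b (R - 1) ((c - 1) / 2)) 0
  else max (-ext A b (R - 1) ((c - 1) / 2)) 0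

/-- Half the number of columns of the rectangle. -/
def wid (n : ℕ) : ℕ := 6 * (n + 2)

/-- The number of inequalities, and of unknowns. -/
def size (m n : ℕ) : ℕ := 6 * (m + 2) * wid n

/-- The place of the inequality `i`. -/
def posC (n i : ℕ) : ℕ × ℕ := (2 * (i % wid n) + i / wid n % 2, i / wid n)

/-- The place of the unknown `j`. -/
def posV (n j : ℕ) : ℕ × ℕ := (2 * (j % wid n) + (j / wid n + 1) % 2, j / wid n)

/-- The table entry of the inequality at `(x, y)` for the unknown at `(u, v)`. -/
def sel (m n x y u v : ℕ) : ℕ :=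
  if v = y ∧ u + 1 = x then (kin m n x y).1
  else if v = y ∧ u = x + 1 then (kin m n x y).2.1
  else if u = x ∧ v + 1 = y then (kin m n x y).2.2.1
  else if u = x ∧ v = y + 1 then (kin m n x y).2.2.2
  else 0

/-- The matrix of the system on the grid with data `D`. -/
def gmat (D : ℕ → ℕ → K) (m n : ℕ) : Matrix (Fin (size m n)) (Fin (size m n)) K := fun i j =>
  val (D ((posC n i).2 / 6) ((posC n i).1 / 6))
    (sel m n (posC n i).1 (posC n i).2 (posV n j).1 (posV n j).2)

/-- The number of the inequality with right-hand side `1`. -/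
def top (n : ℕ) : ℕ := 3 * wid n + (6 * n + 5)

/-- The right-hand side. -/
def grhs (K : Type*) [Field K] (m n : ℕ) : Fin (size m n) → K := fun i =>
  if (i : ℕ) = top n then 1 else 0

end Field

end Pool.Agent.R533.GU
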