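import Pool.Agent.R533.GU.Row

set_option autoImplicit false

/-! The types of the cells and the entries of the table. -/

namespace Pool.Agent.R533.GU

theorem typ_le (m n R c : ℕ) : typ m n R c ≤ 6 := by
  unfold typ; split_ifs <;> omega

theorem typ_one {m n R c : ℕ} (h1 : 1 ≤ R) (h2 : R ≤ m) (h3 : 1 ≤ c) (h4 : c ≤ 2 * n + 2) :
    typ m n R c = 1 := by
  unfold typ; rw [if_pos ⟨h1, h2⟩, if_neg (by omega), if_pos h4]

theorem of_typ_one {m n R c : ℕ} (h : typ m n R c = 1) :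
    1 ≤ R ∧ R ≤ m ∧ 1 ≤ c ∧ c ≤ 2 * n + 2 := by
  unfold typ at h; split_ifs at h <;> omega

theorem typ_two {m n c : ℕ} (h3 : 1 ≤ c) (h4 : c < 2 * n + 1) (h : c % 2 = 1) :
    typ m n 0 c = 2 := by
  unfold typ; rw [if_neg (by omega), if_pos (by omega), if_neg (by omega), if_neg (by omega)]

theorem of_typ_two {m n R c : ℕ} (h : typ m n R c = 2) :
    R = 0 ∧ 1 ≤ c ∧ c < 2 * n + 1 ∧ c % 2 = 1 := by
  unfold typ at h; split_ifs at h <;> omega

theorem typ_six {m n : ℕ} : typ m n 0 (2 * n + 1) = 6 := by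
  unfold typ; rw [if_neg (by omega), if_pos (by omega), if_neg (by omega), if_pos rfl]

theorem of_typ_six {m n R c : ℕ} (h : typ m n R c = 6) : R = 0 ∧ c = 2 * n + 1 := by
  unfold typ at h; split_ifs at h <;> omega

theorem typ_three {m n c : ℕ} (h3 : 1 ≤ c) (h4 : c ≤ 2 * n + 2) (h : c % 2 = 0) :
    typ m n 0 c = 3 := by
  unfold typ; rw [if_neg (by omega), if_pos (by omega), if_pos h]

theorem of_typ_three {m n R c : ℕ} (h : typ m n R c = 3) :
    R = 0 ∧ 1 ≤ c ∧ c ≤ 2 * n + 2 ∧ c % 2 = 0 := by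
  unfold typ at h; split_ifs at h <;> omega

theorem typ_four {m n R : ℕ} (h1 : 1 ≤ R) (h2 : R ≤ m) : typ m n R 0 = 4 := by
  unfold typ; rw [if_pos ⟨h1, h2⟩, if_pos rfl]

theorem of_typ_four {m n R c : ℕ} (h : typ m n R c = 4) : 1 ≤ R ∧ R ≤ m ∧ c = 0 := by
  unfold typ at h; split_ifs at h <;> omega

theorem typ_five {m n R : ℕ} (h1 : 1 ≤ R) (h2 : R ≤ m) : typ m n R (2 * n + 3) = 5 := by
  unfold typ; rw [if_pos ⟨h1, h2⟩, if_neg (by omega), if_neg (by omega), if_pos rfl]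

theorem of_typ_five {m n R c : ℕ} (h : typ m n R c = 5) :
    1 ≤ R ∧ R ≤ m ∧ c = 2 * n + 3 := by
  unfold typ at h; split_ifs at h <;> omega

/-- Local coordinates of a point. -/
theorem kin_loc (m n R c lx ly : ℕ) (hx : lx < 6) (hy : ly < 6) :
    kin m n (6 * c + lx) (6 * R + ly) = tab (36 * typ m n R c + 6 * ly + lx) := by
  unfold kin
  rw [show (6 * R + ly) / 6 = R by omega, show (6 * c + lx) / 6 = c by omega,
    show (6 * R + ly) % 6 = ly by omega, show (6 * c + lx) % 6 = lx by omega]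

theorem val_one {K : Type*} [Field K] (d : K) : val d 1 = 1 := by simp [val]

theorem val_two {K : Type*} [Field K] (d : K) : val d 2 = -1 := by simp [val]

theorem val_three {K : Type*} [Field K] (d : K) : val d 3 = d := by simp [val]

end Pool.Agent.R533.GU
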